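import Mathlib

/-!
# Compressions of finite subsets of `ℤ^r`

For every `r` there is an operator `C` from finite subsets of `ℤ^r` to finite down-sets of `ℕ^r`
which preserves cardinality, is monotone, satisfies `C X + C Y ⊆ C (X + Y)`, and such that
`e_j ∈ C X` as soon as `X` contains two points which differ exactly in the coordinate `j`.
-/

namespace K3h15.RC

open Finset Pointwise

/-- The properties of a compression operator. -/
structure IsComp (r : ℕ) (C : Finset (Fin r → ℤ) → Finset (Fin r → ℕ)) : Prop where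
  card : ∀ X, (C X).card = X.card
  mono : ∀ X Y, X ⊆ Y → C X ⊆ C Y
  add : ∀ X Y, C X + C Y ⊆ C (X + Y)
  lower : ∀ X, IsLowerSet (C X : Set (Fin r → ℕ))
  dir : ∀ X (j : Fin r) x y, x ∈ X → y ∈ X → (∀ i, i ≠ j → x i = y i) → x j ≠ y j →
    Pi.single j 1 ∈ C X

/-- slice of `X ⊂ ℤ^{r+1}` at first coordinate `a` -/
def slice {r : ℕ} (X : Finset (Fin (r + 1) → ℤ)) (a : ℤ) : Finset (Fin r → ℤ) :=
  (X.filter (fun x => x 0 = a)).image Fin.tail

lemma mem_slice {r : ℕ} {X : Finset (Fin (r + 1) → ℤ)} {a : ℤ} {z : Fin r → ℤ} :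
    z ∈ slice X a ↔ (Fin.cons a z : Fin (r + 1) → ℤ) ∈ X := by
  unfold slice
  rw [Finset.mem_image]
  constructor
  · rintro ⟨x, hx, rfl⟩
    rw [Finset.mem_filter] at hx
    obtain ⟨hx, rfl⟩ := hx
    rwa [Fin.cons_self_tail]
  · intro h
    refine ⟨Fin.cons a z, ?_, ?_⟩
    · rw [Finset.mem_filter]
      exact ⟨h, Fin.cons_zero _ _⟩
    · exact Fin.tail_cons _ _

/-- first coordinates -/
def fst {r : ℕ} (X : Finset (Fin (r + 1) → ℤ)) : Finset ℤ := X.image (fun x => x 0)

lemma slice_nonempty {r : ℕ} {X : Finset (Fin (r + 1) → ℤ)} {a : ℤ} (ha : (slice X a).Nonempty) :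
    a ∈ fst X := by
  obtain ⟨z, hz⟩ := ha
  rw [mem_slice] at hz
  unfold fst
  rw [Finset.mem_image]
  exact ⟨_, hz, Fin.cons_zero _ _⟩

/-- number of slices whose compression contains `z` -/
def cnt {r : ℕ} (C : Finset (Fin r → ℤ) → Finset (Fin r → ℕ)) (X : Finset (Fin (r + 1) → ℤ))
    (z : Fin r → ℕ) : Finset ℤ :=
  (fst X).filter (fun a => z ∈ C (slice X a))

/-- next compression operator -/
def nextC {r : ℕ} (C : Finset (Fin r → ℤ) → Finset (Fin r → ℕ)) (X : Finset (Fin (r + 1) → ℤ)) :
    Finset (Fin (r + 1) → ℕ) :=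
  ((fst X).biUnion (fun a => C (slice X a))).biUnion
    (fun z => (Finset.range (cnt C X z).card).image (fun t => (Fin.cons t z : Fin (r + 1) → ℕ)))

lemma mem_cnt {r : ℕ} {C : Finset (Fin r → ℤ) → Finset (Fin r → ℕ)} (hC : IsComp r C)
    {X : Finset (Fin (r + 1) → ℤ)} {z : Fin r → ℕ} {a : ℤ} :
    a ∈ cnt C X z ↔ z ∈ C (slice X a) := by
  unfold cnt
  rw [Finset.mem_filter]
  constructor
  · exact fun h => h.2
  · intro h
    refine ⟨slice_nonempty ?_, h⟩
    rw [← Finset.card_pos, ← hC.card]
    exact Finset.card_pos.mpr ⟨z, h⟩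

lemma mem_nextC {r : ℕ} {C : Finset (Fin r → ℤ) → Finset (Fin r → ℕ)}
    {X : Finset (Fin (r + 1) → ℤ)} {z : Fin (r + 1) → ℕ} :
    z ∈ nextC C X ↔ z 0 < (cnt C X (Fin.tail z)).card := by
  unfold nextC
  simp only [Finset.mem_biUnion, Finset.mem_image, Finset.mem_range]
  constructor
  · rintro ⟨z', _, t, ht, rfl⟩
    rw [Fin.cons_zero, Fin.tail_cons]
    exact ht
  · intro h
    have hpos : 0 < (cnt C X (Fin.tail z)).card := by omega
    obtain ⟨a, ha⟩ := Finset.card_pos.mp hpos
    unfold cnt at ha
    rw [Finset.mem_filter] at ha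
    exact ⟨Fin.tail z, ⟨a, ha⟩, z 0, h, Fin.cons_self_tail z⟩

lemma isComp_nextC {r : ℕ} {C : Finset (Fin r → ℤ) → Finset (Fin r → ℕ)} (hC : IsComp r C) :
    IsComp (r + 1) (nextC C) where
  card := by
    intro X
    have h1 : (nextC C X).card = ∑ z ∈ (fst X).biUnion (fun a => C (slice X a)),
        (cnt C X z).card := by
      unfold nextC
      rw [Finset.card_biUnion]
      · apply Finset.sum_congr rfl
        intro z _
        rw [Finset.card_image_of_injective, Finset.card_range]
        intro t t' h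
        have := congrFun h 0
        simpa using this
      · intro z _ z' _ hne
        rw [Function.onFun, Finset.disjoint_left]
        intro w hw hw'
        rw [Finset.mem_image] at hw hw'
        obtain ⟨t, _, rfl⟩ := hw
        obtain ⟨t', _, h⟩ := hw'
        apply hne
        have := congrArg Fin.tail h
        rw [Fin.tail_cons, Fin.tail_cons] at this
        exact this.symm
    have h2 : ∑ z ∈ (fst X).biUnion (fun a => C (slice X a)), (cnt C X z).card =
        ∑ a ∈ fst X, (C (slice X a)).card := by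
      have e1 : ∀ z, (cnt C X z).card = ∑ a ∈ fst X, if z ∈ C (slice X a) then 1 else 0 := by
        intro z
        unfold cnt
        rw [Finset.card_filter]
      rw [Finset.sum_congr rfl (fun z _ => e1 z), Finset.sum_comm]
      apply Finset.sum_congr rfl
      intro a ha
      rw [← Finset.card_filter]
      congr 1
      ext z
      rw [Finset.mem_filter, Finset.mem_biUnion]
      constructor
      · exact fun h => h.2
      · exact fun h => ⟨⟨a, ha, h⟩, h⟩
    rw [h1, h2]
    have h3 : X.card = ∑ a ∈ fst X, (X.filter (fun x => x 0 = a)).card :=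
      Finset.card_eq_sum_card_fiberwise (by
        intro x hx
        exact Finset.mem_coe.mpr (Finset.mem_image_of_mem _ (Finset.mem_coe.mp hx)))
    rw [h3]
    apply Finset.sum_congr rfl
    intro a _
    rw [hC.card]
    unfold slice
    rw [Finset.card_image_of_injOn]
    intro x hx y hy hxy
    rw [Finset.mem_coe, Finset.mem_filter] at hx hy
    rw [← Fin.cons_self_tail x, ← Fin.cons_self_tail y, hx.2, hy.2, hxy]
  mono := by
    intro X Y hXY z hz
    rw [mem_nextC] at hz ⊢
    refine lt_of_lt_of_le hz (Finset.card_le_card ?_)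
    intro a ha
    rw [mem_cnt hC] at ha ⊢
    refine hC.mono _ _ ?_ ha
    intro x hx
    rw [mem_slice] at hx ⊢
    exact hXY hx
  add := by
    intro X Y z hz
    rw [Finset.mem_add] at hz
    obtain ⟨x, hx, y, hy, rfl⟩ := hz
    rw [mem_nextC] at hx hy ⊢
    have hsub : cnt C X (Fin.tail x) + cnt C Y (Fin.tail y) ⊆ cnt C (X + Y) (Fin.tail (x + y)) := by
      intro c hc
      rw [Finset.mem_add] at hc
      obtain ⟨a, ha, b, hb, rfl⟩ := hc
      rw [mem_cnt hC] at ha hb ⊢
      have h1 : Fin.tail (x + y) = Fin.tail x + Fin.tail y := rfl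
      rw [h1]
      have h2 := hC.add _ _ (Finset.add_mem_add ha hb)
      refine hC.mono _ _ ?_ h2
      intro w hw
      rw [Finset.mem_add] at hw
      obtain ⟨u, hu, v, hv, rfl⟩ := hw
      rw [mem_slice] at hu hv ⊢
      have h3 : (Fin.cons (a + b) (u + v) : Fin (r + 1) → ℤ) =
          (Fin.cons a u : Fin (r + 1) → ℤ) + (Fin.cons b v : Fin (r + 1) → ℤ) := by
        funext i
        refine Fin.cases ?_ (fun j => ?_) i <;> simp
      rw [h3]
      exact Finset.add_mem_add hu hv
    have hne1 : (cnt C X (Fin.tail x)).Nonempty := Finset.card_pos.mp (by omega)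
    have hne2 : (cnt C Y (Fin.tail y)).Nonempty := Finset.card_pos.mp (by omega)
    have hcd := cauchy_davenport_add_of_linearOrder_isCancelAdd hne1 hne2
    have := Finset.card_le_card hsub
    rw [Pi.add_apply]
    omega
  lower := by
    intro X x y hyx hx
    rw [Finset.mem_coe, mem_nextC] at hx ⊢
    have hsub : cnt C X (Fin.tail x) ⊆ cnt C X (Fin.tail y) := by
      intro a ha
      rw [mem_cnt hC] at ha ⊢
      have hle : Fin.tail y ≤ Fin.tail x := fun i => hyx i.succ
      exact Finset.mem_coe.mp (hC.lower _ hle (Finset.mem_coe.mpr ha))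
    have := Finset.card_le_card hsub
    have h0 : y 0 ≤ x 0 := hyx 0
    omega
  dir := by
    intro X j x y hx hy hxy hne
    rw [mem_nextC]
    revert hxy hne
    refine Fin.cases ?_ (fun j' => ?_) j
    · intro hxy hne
      have ht : Fin.tail (Pi.single 0 1 : Fin (r + 1) → ℕ) = 0 := by
        funext i
        unfold Fin.tail
        rw [Pi.single_eq_of_ne (Fin.succ_ne_zero i)]
        rfl
      rw [ht, Pi.single_eq_same]
      have htail : Fin.tail x = Fin.tail y := by
        funext i
        exact hxy i.succ (Fin.succ_ne_zero i)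
      have hmem : ∀ w : Fin (r + 1) → ℤ, w ∈ X → w 0 ∈ cnt C X 0 := by
        intro w hw
        rw [mem_cnt hC]
        have h1 : Fin.tail w ∈ slice X (w 0) := by
          rw [mem_slice, Fin.cons_self_tail]; exact hw
        have h2 : 0 < (C (slice X (w 0))).card := by
          rw [hC.card]; exact Finset.card_pos.mpr ⟨_, h1⟩
        obtain ⟨u, hu⟩ := Finset.card_pos.mp h2
        exact Finset.mem_coe.mp (hC.lower _ (fun i => Nat.zero_le _) (Finset.mem_coe.mpr hu))
      exact Finset.one_lt_card.mpr ⟨x 0, hmem x hx, y 0, hmem y hy, hne⟩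
    · intro hxy hne
      have h0 : (Pi.single j'.succ 1 : Fin (r + 1) → ℕ) 0 = 0 :=
        Pi.single_eq_of_ne (Fin.succ_ne_zero j').symm _
      have ht : Fin.tail (Pi.single j'.succ 1 : Fin (r + 1) → ℕ) = Pi.single j' 1 := by
        funext i
        unfold Fin.tail
        by_cases hi : i = j'
        · subst hi; rw [Pi.single_eq_same, Pi.single_eq_same]
        · rw [Pi.single_eq_of_ne hi, Pi.single_eq_of_ne (fun h => hi (Fin.succ_injective _ h))]
      rw [h0, ht]
      apply Finset.card_pos.mpr
      refine ⟨x 0, ?_⟩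
      rw [mem_cnt hC]
      have hx0 : x 0 = y 0 := hxy 0 (Fin.succ_ne_zero j').symm
      refine hC.dir _ j' (Fin.tail x) (Fin.tail y) ?_ ?_ ?_ hne
      · rw [mem_slice, Fin.cons_self_tail]; exact hx
      · rw [mem_slice, hx0, Fin.cons_self_tail]; exact hy
      · intro i hi
        exact hxy i.succ (fun h => hi (Fin.succ_injective _ h))

theorem exists_isComp (r : ℕ) : ∃ C, IsComp r C := by
  induction r with
  | zero =>
    refine ⟨fun X => X.image (fun _ => 0), ?_, ?_, ?_, ?_, ?_⟩
    · intro X
      apply Finset.card_image_of_injective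
      intro x y _
      exact Subsingleton.elim _ _
    · intro X Y h
      exact Finset.image_subset_image h
    · intro X Y z hz
      rw [Finset.mem_add] at hz
      obtain ⟨x, hx, y, hy, rfl⟩ := hz
      rw [Finset.mem_image] at hx hy ⊢
      obtain ⟨x', hx', _⟩ := hx
      obtain ⟨y', hy', _⟩ := hy
      exact ⟨x' + y', Finset.add_mem_add hx' hy', Subsingleton.elim _ _⟩
    · intro X x y _ hx
      rwa [Subsingleton.elim y x]
    · intro X j
      exact j.elim0
  | succ r ih =>
    obtain ⟨C, hC⟩ := ih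
    exact ⟨nextC C, isComp_nextC hC⟩

end K3h15.RC
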