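import Mathlib

/-!
# Growth of sums of down-sets in `ℕ^ι`

If `X, Y ⊆ ℕ^ι` are finite nonempty down-sets which both contain the unit vectors `e_i`, `i ∈ I`,
then `3 * |I| * min |X| |Y| ≤ 38 * |X + Y|`.
-/

namespace K3h15.RC

open Finset Pointwise

variable {ι : Type*} [Fintype ι] [DecidableEq ι]

/-- Disjoint translates. -/
lemma transl {X Y : Finset (ι → ℕ)} {J : Finset ι} {u : ι → ℕ}
    (hY : ∀ i ∈ J, Pi.single i (u i) ∈ Y) (hX : ∀ x ∈ X, ∀ i ∈ J, x i < u i) :
    X.card * J.card ≤ (X + Y).card := by
  rw [← Finset.card_product]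
  apply Finset.card_le_card_of_injOn (fun p => p.1 + Pi.single p.2 (u p.2))
  · intro p hp
    simp only [Finset.coe_product, Set.mem_prod, Finset.mem_coe] at hp
    exact Finset.mem_coe.mpr (Finset.add_mem_add hp.1 (hY _ hp.2))
  · rintro ⟨x, i⟩ hp ⟨x', i'⟩ hp' h
    simp only [Finset.coe_product, Set.mem_prod, Finset.mem_coe] at hp hp'
    simp only at h
    have hii : i = i' := by
      by_contra hne
      have h1 := congrFun h i'
      simp only [Pi.add_apply, Pi.single_eq_same] at h1
      rw [Pi.single_eq_of_ne (Ne.symm hne)] at h1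
      have := hX x hp.1 i' hp'.2
      omega
    subst hii
    have hxx : x = x' := by
      funext j
      have := congrFun h j
      simpa using this
    rw [hxx]

/-- Median. -/
lemma exists_median {α : Type*} (X : Finset α) (g : α → ℕ) :
    ∃ h, X.card ≤ 2 * (X.filter (fun x => g x ≤ h)).card ∧
      X.card ≤ 2 * (X.filter (fun x => h ≤ g x)).card := by
  classical
  have hex : ∃ h, X.card ≤ 2 * (X.filter (fun x => g x ≤ h)).card := by
    refine ⟨X.sup g, ?_⟩
    have : X.filter (fun x => g x ≤ X.sup g) = X := by
      apply Finset.filter_true_of_mem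
      intro x hx
      exact Finset.le_sup hx
    rw [this]; omega
  refine ⟨Nat.find hex, Nat.find_spec hex, ?_⟩
  rcases Nat.eq_zero_or_pos (Nat.find hex) with h0 | hpos
  · rw [h0]
    have : X.filter (fun x => 0 ≤ g x) = X := Finset.filter_true_of_mem (by simp)
    rw [this]; omega
  · have hlt := Nat.find_min hex (m := Nat.find hex - 1) (by omega)
    have hsplit := Finset.card_filter_add_card_filter_not (s := X)
      (p := fun x => g x ≤ Nat.find hex - 1)
    have heq : X.filter (fun x => ¬ g x ≤ Nat.find hex - 1) =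
        X.filter (fun x => Nat.find hex ≤ g x) := by
      apply Finset.filter_congr
      intro x _
      constructor <;> intro h <;> omega
    rw [heq] at hsplit
    omega

/-- one doubling step -/
lemma step_growth (W : Finset (ι → ℕ)) (j : ι) (m : ℕ) (hm : 1 ≤ m) (hW : ∀ w ∈ W, w j ≤ m) :
    3 * W.card ≤ 2 * (W ∪ W.image (fun w => w + Pi.single j m)).card := by
  have hinj : Function.Injective (fun w : ι → ℕ => w + Pi.single j m) :=
    add_left_injective _
  have hc : (W.image (fun w => w + Pi.single j m)).card = W.card :=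
    Finset.card_image_of_injective _ hinj
  have hui := Finset.card_union_add_card_inter W (W.image (fun w => w + Pi.single j m))
  rw [hc] at hui
  set V := W ∩ W.image (fun w => w + Pi.single j m) with hV
  have h1 : V ⊆ W.filter (fun w => w j = m) := by
    intro w hw
    rw [hV, Finset.mem_inter, Finset.mem_image] at hw
    obtain ⟨hw1, w', hw', rfl⟩ := hw
    rw [Finset.mem_filter]
    refine ⟨hw1, ?_⟩
    have := hW _ hw1
    simp only [Pi.add_apply, Pi.single_eq_same] at this ⊢
    omega
  have h2 : V ⊆ (W.filter (fun w => w j = 0)).image (fun w => w + Pi.single j m) := by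
    intro w hw
    rw [hV, Finset.mem_inter, Finset.mem_image] at hw
    obtain ⟨hw1, w', hw', rfl⟩ := hw
    apply Finset.mem_image_of_mem
    rw [Finset.mem_filter]
    refine ⟨hw', ?_⟩
    have := hW _ hw1
    simp only [Pi.add_apply, Pi.single_eq_same] at this
    omega
  have h1' := Finset.card_le_card h1
  have h2' := Finset.card_le_card h2
  rw [Finset.card_image_of_injective _ hinj] at h2'
  have h3 : (W.filter (fun w => w j = m)).card + (W.filter (fun w => w j = 0)).card ≤ W.card := by
    rw [← Finset.card_union_of_disjoint]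
    · apply Finset.card_le_card
      intro w hw
      rw [Finset.mem_union, Finset.mem_filter, Finset.mem_filter] at hw
      tauto
    · rw [Finset.disjoint_filter]
      intro w _ h h'
      omega
  omega

/-- the vector `Σ_{j ∈ P} m_j e_j` -/
def ind (m : ι → ℕ) (P : Finset ι) : ι → ℕ := fun j => if j ∈ P then m j else 0

/-- sums of `W` with all the subset vectors of `P` -/
def Sub (m : ι → ℕ) (W : Finset (ι → ℕ)) (P : Finset ι) : Finset (ι → ℕ) :=
  W + P.powerset.image (ind m)

lemma mem_Sub {m : ι → ℕ} {W : Finset (ι → ℕ)} {P : Finset ι} {z : ι → ℕ} :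
    z ∈ Sub m W P ↔ ∃ w ∈ W, ∃ Q ⊆ P, w + ind m Q = z := by
  unfold Sub
  rw [Finset.mem_add]
  simp only [Finset.mem_image, Finset.mem_powerset]
  constructor
  · rintro ⟨w, hw, _, ⟨Q, hQ, rfl⟩, h⟩
    exact ⟨w, hw, Q, hQ, h⟩
  · rintro ⟨w, hw, Q, hQ, h⟩
    exact ⟨w, hw, _, ⟨Q, hQ, rfl⟩, h⟩

omit [Fintype ι] in
lemma ind_insert {m : ι → ℕ} {j : ι} {Q : Finset ι} (hj : j ∉ Q) :
    ind m (insert j Q) = ind m Q + Pi.single j (m j) := by
  funext i
  simp only [ind, Pi.add_apply, Finset.mem_insert]
  by_cases hij : i = j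
  · subst hij
    simp [hj]
  · simp [hij]

lemma Sub_growth (m : ι → ℕ) (W : Finset (ι → ℕ)) (P : Finset ι) (hm : ∀ j ∈ P, 1 ≤ m j)
    (hW : ∀ w ∈ W, ∀ j ∈ P, w j ≤ m j) :
    3 ^ P.card * W.card ≤ 2 ^ P.card * (Sub m W P).card := by
  induction P using Finset.induction_on with
  | empty =>
    have : Sub m W ∅ = W := by
      ext z
      rw [mem_Sub]
      constructor
      · rintro ⟨w, hw, Q, hQ, rfl⟩
        rw [Finset.subset_empty] at hQ
        subst hQ
        have : w + ind m ∅ = w := by funext i; simp [ind]
        rwa [this]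
      · intro hz
        exact ⟨z, hz, ∅, le_refl _, by funext i; simp [ind]⟩
    simp [this]
  | insert j P hj ih =>
    have ih' := ih (fun i hi => hm i (Finset.mem_insert_of_mem hi))
      (fun w hw i hi => hW w hw i (Finset.mem_insert_of_mem hi))
    have hSub : ∀ w ∈ Sub m W P, w j ≤ m j := by
      intro z hz
      rw [mem_Sub] at hz
      obtain ⟨w, hw, Q, hQ, rfl⟩ := hz
      have hjQ : j ∉ Q := fun h => hj (hQ h)
      simp only [Pi.add_apply, ind, hjQ, if_false, add_zero]
      exact hW w hw j (Finset.mem_insert_self _ _)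
    have hs := step_growth (Sub m W P) j (m j) (hm j (Finset.mem_insert_self _ _)) hSub
    have hsub : Sub m W P ∪ (Sub m W P).image (fun w => w + Pi.single j (m j)) ⊆
        Sub m W (insert j P) := by
      intro z hz
      rw [Finset.mem_union, Finset.mem_image] at hz
      rw [mem_Sub]
      rcases hz with hz | ⟨z', hz, rfl⟩
      · rw [mem_Sub] at hz
        obtain ⟨w, hw, Q, hQ, rfl⟩ := hz
        exact ⟨w, hw, Q, hQ.trans (Finset.subset_insert _ _), rfl⟩
      · rw [mem_Sub] at hz
        obtain ⟨w, hw, Q, hQ, rfl⟩ := hz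
        have hjQ : j ∉ Q := fun h => hj (hQ h)
        refine ⟨w, hw, insert j Q, Finset.insert_subset_insert _ hQ, ?_⟩
        rw [ind_insert hjQ, add_assoc]
    have hcard := Finset.card_le_card hsub
    rw [Finset.card_insert_of_notMem hj, pow_succ, pow_succ]
    calc 3 ^ P.card * 3 * W.card = 3 * (3 ^ P.card * W.card) := by ring
      _ ≤ 3 * (2 ^ P.card * (Sub m W P).card) := by gcongr
      _ = 2 ^ P.card * (3 * (Sub m W P).card) := by ring
      _ ≤ 2 ^ P.card * (2 * (Sub m W P ∪
            (Sub m W P).image (fun w => w + Pi.single j (m j))).card) := by gcongr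
      _ ≤ 2 ^ P.card * (2 * (Sub m W (insert j P)).card) := by gcongr
      _ = 2 ^ P.card * 2 * (Sub m W (insert j P)).card := by ring

lemma num_ineq (h : ℕ) (hh : 1 ≤ h) : 3 * h * 2 ^ (h - 1) ≤ 4 * 3 ^ (h - 1) := by
  rcases Nat.lt_or_ge h 2 with h2 | h2
  · have : h = 1 := by omega
    subst this; norm_num
  · induction h, h2 using Nat.le_induction with
    | base => norm_num
    | succ k hk ih =>
      have ih' := ih (by omega)
      have e : k = k - 1 + 1 := by omega
      have h1 : (k + 1 - 1) = (k - 1) + 1 := by omega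
      rw [h1, pow_succ, pow_succ]
      have h3 := Nat.mul_le_mul_right (2 ^ (k - 1)) (show 6 * (k + 1) ≤ 9 * k by omega)
      nlinarith [h3, ih']

/-- maximal value of a coordinate -/
def mx (X : Finset (ι → ℕ)) (i : ι) : ℕ := X.sup (fun x => x i)

omit [Fintype ι] [DecidableEq ι] in
lemma le_mx {X : Finset (ι → ℕ)} {x : ι → ℕ} (hx : x ∈ X) (i : ι) : x i ≤ mx X i :=
  Finset.le_sup (f := fun x : ι → ℕ => x i) hx

omit [Fintype ι] in
lemma single_mem {X : Finset (ι → ℕ)} (hX : IsLowerSet (X : Set (ι → ℕ))) (hne : X.Nonempty)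
    (i : ι) {t : ℕ} (ht : t ≤ mx X i) : Pi.single i t ∈ X := by
  obtain ⟨x, hx, hxi⟩ := Finset.exists_mem_eq_sup X hne (fun x : ι → ℕ => x i)
  have hle : (Pi.single i t : ι → ℕ) ≤ x := by
    intro j
    by_cases hj : j = i
    · subst hj
      rw [Pi.single_eq_same]
      unfold mx at ht
      rw [hxi] at ht
      exact ht
    · rw [Pi.single_eq_of_ne hj]
      exact Nat.zero_le _
  exact Finset.mem_coe.mp (hX hle (Finset.mem_coe.mpr hx))

lemma core {X Y : Finset (ι → ℕ)} (hX : IsLowerSet (X : Set (ι → ℕ)))
    (hY : IsLowerSet (Y : Set (ι → ℕ))) (hXne : X.Nonempty) (hYne : Y.Nonempty)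
    (R : Finset ι) (m : ι → ℕ) (hm1 : ∀ i ∈ R, 1 ≤ m i) (hmX : ∀ i ∈ R, mx X i = m i)
    (hmY : ∀ i ∈ R, mx Y i = m i) (hx hy : ℕ) (hle : hx ≤ hy)
    (hX₁ : X.card ≤ 2 * (X.filter (fun x => (R.filter (fun i => x i = m i)).card ≤ hx)).card)
    (hY₂ : Y.card ≤ 2 * (Y.filter (fun x => hy ≤ (R.filter (fun i => x i = m i)).card)).card) :
    3 * R.card * min X.card Y.card ≤ 32 * (X + Y).card := by
  classical
  set X₁ := X.filter (fun x => (R.filter (fun i => x i = m i)).card ≤ hx) with hX₁def
  set Y₂ := Y.filter (fun x => hy ≤ (R.filter (fun i => x i = m i)).card) with hY₂def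
  set J := Y₂.biUnion (fun y => R.filter (fun i => y i = m i)) with hJdef
  have hX₁X : X₁ ⊆ X := Finset.filter_subset _ _
  have hY₂Y : Y₂ ⊆ Y := Finset.filter_subset _ _
  have hJR : J ⊆ R := by
    intro i hi
    rw [hJdef, Finset.mem_biUnion] at hi
    obtain ⟨y, _, hy⟩ := hi
    exact (Finset.mem_filter.mp hy).1
  have hmin1 := min_le_left X.card Y.card
  have hmin2 := min_le_right X.card Y.card
  by_cases hJ : 2 * J.card < R.card
  · have ht := transl (X := Y₂) (Y := X) (J := R \ J) (u := m)
      (by
        intro i hi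
        have hiR := (Finset.mem_sdiff.mp hi).1
        exact single_mem hX hXne i (by rw [hmX i hiR]))
      (by
        intro y hy' i hi
        rw [Finset.mem_sdiff] at hi
        have h1 := le_mx (hY₂Y hy') i
        rw [hmY i hi.1] at h1
        refine lt_of_le_of_ne h1 ?_
        intro he
        apply hi.2
        rw [hJdef, Finset.mem_biUnion]
        exact ⟨y, hy', Finset.mem_filter.mpr ⟨hi.1, he⟩⟩)
    have h2 : (Y₂ + X).card ≤ (X + Y).card := by
      rw [add_comm X Y]
      exact Finset.card_le_card (Finset.add_subset_add_right hY₂Y)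
    have h3 : (R \ J).card + J.card = R.card := Finset.card_sdiff_add_card_eq_card hJR
    have h4 : Y.card * R.card ≤ 4 * (Y₂.card * (R \ J).card) := by
      calc Y.card * R.card ≤ (2 * Y₂.card) * (2 * (R \ J).card) := by
            apply Nat.mul_le_mul hY₂; omega
        _ = _ := by ring
    have h5 : R.card * min X.card Y.card ≤ Y.card * R.card := by
      rw [mul_comm]; exact Nat.mul_le_mul_right _ hmin2
    nlinarith
  · push Not at hJ
    rcases Nat.eq_zero_or_pos hy with h0 | hypos
    · have hx0 : hx = 0 := by omega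
      have ht := transl (X := X₁) (Y := Y) (J := R) (u := m)
        (by
          intro i hi
          exact single_mem hY hYne i (by rw [hmY i hi]))
        (by
          intro x hx' i hi
          have h1 := le_mx (hX₁X hx') i
          rw [hmX i hi] at h1
          refine lt_of_le_of_ne h1 ?_
          intro he
          have h2 := (Finset.mem_filter.mp hx').2
          rw [hx0, Nat.le_zero, Finset.card_eq_zero] at h2
          have h3 : i ∈ R.filter (fun i => x i = m i) := Finset.mem_filter.mpr ⟨hi, he⟩
          rw [h2] at h3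
          exact absurd h3 (Finset.notMem_empty _))
      have h2 : (X₁ + Y).card ≤ (X + Y).card :=
        Finset.card_le_card (Finset.add_subset_add_right hX₁X)
      have h4 : X.card * R.card ≤ 2 * (X₁.card * R.card) := by
        calc X.card * R.card ≤ (2 * X₁.card) * R.card := Nat.mul_le_mul_right _ hX₁
          _ = _ := by ring
      have h5 : R.card * min X.card Y.card ≤ X.card * R.card := by
        rw [mul_comm]; exact Nat.mul_le_mul_right _ hmin1
      nlinarith
    · -- main case
      have hch : ∀ i ∈ J, ∃ P : Finset ι, ∃ y ∈ Y, i ∈ P ∧ P ⊆ R.filter (fun i => y i = m i) ∧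
          P.card = hy := by
        intro i hi
        rw [hJdef, Finset.mem_biUnion] at hi
        obtain ⟨y, hy1, hy2⟩ := hi
        have hc := (Finset.mem_filter.mp hy1).2
        obtain ⟨P, hP1, hP2, hP3⟩ := Finset.exists_subsuperset_card_eq
          (s := {i}) (t := R.filter (fun i => y i = m i)) (n := hy)
          (Finset.singleton_subset_iff.mpr hy2) (by rw [Finset.card_singleton]; exact hypos) hc
        exact ⟨P, y, hY₂Y hy1, hP1 (Finset.mem_singleton_self _), hP2, hP3⟩
      choose! P yy hyy using hch
      set Gs : ι → Finset (ι → ℕ) := fun i =>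
        Sub m (X₁.image (fun x => x + Pi.single i (m i))) ((P i).erase i) with hGs
      have hPR : ∀ i ∈ J, P i ⊆ R := by
        intro i hi j hj
        exact (Finset.mem_filter.mp ((hyy i hi).2.2.1 hj)).1
      -- description of members
      have hGmem : ∀ i ∈ J, ∀ z ∈ Gs i, ∃ x ∈ X₁, ∃ Q ⊆ P i, i ∈ Q ∧ z = x + ind m Q := by
        intro i hi z hz
        rw [hGs, mem_Sub] at hz
        obtain ⟨w, hw, Q, hQ, rfl⟩ := hz
        rw [Finset.mem_image] at hw
        obtain ⟨x, hx', rfl⟩ := hw
        have hiQ : i ∉ Q := fun h => (Finset.mem_erase.mp (hQ h)).1 rfl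
        refine ⟨x, hx', insert i Q, ?_, Finset.mem_insert_self _ _, ?_⟩
        · intro j hj
          rw [Finset.mem_insert] at hj
          rcases hj with rfl | hj
          · exact (hyy _ hi).2.1
          · exact Finset.mem_of_mem_erase (hQ hj)
        · rw [ind_insert hiQ, add_assoc]
          congr 1
          exact add_comm _ _
      have hGsub : ∀ i ∈ J, Gs i ⊆ X + Y := by
        intro i hi z hz
        obtain ⟨x, hx', Q, hQ, hiQ, rfl⟩ := hGmem i hi z hz
        apply Finset.add_mem_add (hX₁X hx')
        have hle' : ind m Q ≤ yy i := by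
          intro j
          unfold ind
          split_ifs with hj
          · have := (Finset.mem_filter.mp ((hyy i hi).2.2.1 (hQ hj))).2
            exact this.ge
          · exact Nat.zero_le _
        exact Finset.mem_coe.mp (hY hle' (Finset.mem_coe.mpr (hyy i hi).1))
      have hGcard : ∀ i ∈ J, 3 ^ (hy - 1) * X₁.card ≤ 2 ^ (hy - 1) * (Gs i).card := by
        intro i hi
        have hPc : ((P i).erase i).card = hy - 1 := by
          rw [Finset.card_erase_of_mem (hyy i hi).2.1, (hyy i hi).2.2.2]
        have hg := Sub_growth m (X₁.image (fun x => x + Pi.single i (m i))) ((P i).erase i)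
          (fun j hj => hm1 j (hPR i hi (Finset.mem_of_mem_erase hj)))
          (by
            intro w hw j hj
            rw [Finset.mem_image] at hw
            obtain ⟨x, hx', rfl⟩ := hw
            have hji : j ≠ i := (Finset.mem_erase.mp hj).1
            simp only [Pi.add_apply]
            rw [Pi.single_eq_of_ne hji, add_zero]
            have := le_mx (hX₁X hx') j
            rwa [hmX j (hPR i hi (Finset.mem_of_mem_erase hj))] at this)
        rw [hPc, Finset.card_image_of_injective _ (add_left_injective _)] at hg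
        exact hg
      have hmult : ∀ z ∈ X + Y, (J.filter (fun i => z ∈ Gs i)).card ≤ 2 * hy := by
        intro z _
        rcases (J.filter (fun i => z ∈ Gs i)).eq_empty_or_nonempty with he | ⟨i₀, hi₀⟩
        · rw [he]; simp
        · rw [Finset.mem_filter] at hi₀
          obtain ⟨x, hx', Q, hQ, hiQ, hz⟩ := hGmem i₀ hi₀.1 z hi₀.2
          have hsub : J.filter (fun i => z ∈ Gs i) ⊆ (R.filter (fun i => x i = m i)) ∪ Q := by
            intro i hi
            rw [Finset.mem_filter] at hi
            have hiR := hJR hi.1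
            obtain ⟨x', hx'', Q', hQ', hiQ', hz'⟩ := hGmem i hi.1 z hi.2
            have h1 : m i ≤ z i := by
              rw [hz', Pi.add_apply]
              unfold ind
              rw [if_pos hiQ']
              omega
            rw [Finset.mem_union]
            by_cases hiQ2 : i ∈ Q
            · right; exact hiQ2
            · left
              rw [Finset.mem_filter]
              refine ⟨hiR, ?_⟩
              have h2 : z i = x i := by
                rw [hz, Pi.add_apply]
                unfold ind
                rw [if_neg hiQ2]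
                omega
              have h3 := le_mx (hX₁X hx') i
              rw [hmX i hiR] at h3
              omega
          have h1 := Finset.card_le_card hsub
          have h2 := Finset.card_union_le (R.filter (fun i => x i = m i)) Q
          have h3 := (Finset.mem_filter.mp hx').2
          have h4 := Finset.card_le_card hQ
          rw [(hyy i₀ hi₀.1).2.2.2] at h4
          omega
      have hdc : ∑ i ∈ J, (Gs i).card ≤ 2 * hy * (X + Y).card := by
        have h1 : ∑ i ∈ J, (Gs i).card = ∑ i ∈ J, ∑ z ∈ X + Y, (if z ∈ Gs i then 1 else 0) := by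
          apply Finset.sum_congr rfl
          intro i hi
          rw [← Finset.sum_filter, Finset.sum_const, smul_eq_mul, mul_one]
          congr 1
          ext z
          rw [Finset.mem_filter]
          constructor
          · intro hz; exact ⟨hGsub i hi hz, hz⟩
          · intro hz; exact hz.2
        rw [h1, Finset.sum_comm]
        calc ∑ z ∈ X + Y, ∑ i ∈ J, (if z ∈ Gs i then 1 else 0)
            ≤ ∑ z ∈ X + Y, 2 * hy := by
              apply Finset.sum_le_sum
              intro z hz
              rw [← Finset.sum_filter, Finset.sum_const, smul_eq_mul, mul_one]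
              exact hmult z hz
          _ = 2 * hy * (X + Y).card := by
              rw [Finset.sum_const, smul_eq_mul, mul_comm]
      have hsum : J.card * (3 ^ (hy - 1) * X₁.card) ≤ 2 ^ (hy - 1) * (2 * hy * (X + Y).card) := by
        calc J.card * (3 ^ (hy - 1) * X₁.card) = ∑ i ∈ J, 3 ^ (hy - 1) * X₁.card := by
              rw [Finset.sum_const, smul_eq_mul]
          _ ≤ ∑ i ∈ J, 2 ^ (hy - 1) * (Gs i).card := Finset.sum_le_sum hGcard
          _ = 2 ^ (hy - 1) * ∑ i ∈ J, (Gs i).card := by rw [Finset.mul_sum]
          _ ≤ _ := Nat.mul_le_mul_left _ hdc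
      have hn := num_ineq hy hypos
      have h3pos : 0 < 3 ^ (hy - 1) := by positivity
      have hkey : 3 * (J.card * X₁.card) ≤ 8 * (X + Y).card := by
        have e1 : 3 ^ (hy - 1) * (3 * (J.card * X₁.card)) ≤ 3 ^ (hy - 1) * (8 * (X + Y).card) := by
          calc 3 ^ (hy - 1) * (3 * (J.card * X₁.card))
              = 3 * (J.card * (3 ^ (hy - 1) * X₁.card)) := by ring
            _ ≤ 3 * (2 ^ (hy - 1) * (2 * hy * (X + Y).card)) := Nat.mul_le_mul_left _ hsum
            _ = (3 * hy * 2 ^ (hy - 1)) * (2 * (X + Y).card) := by ring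
            _ ≤ (4 * 3 ^ (hy - 1)) * (2 * (X + Y).card) := Nat.mul_le_mul_right _ hn
            _ = 3 ^ (hy - 1) * (8 * (X + Y).card) := by ring
        exact Nat.le_of_mul_le_mul_left e1 h3pos
      have h4 : R.card * X.card ≤ 4 * (J.card * X₁.card) := by
        calc R.card * X.card ≤ (2 * J.card) * (2 * X₁.card) := Nat.mul_le_mul hJ hX₁
          _ = _ := by ring
      have h5 : R.card * min X.card Y.card ≤ R.card * X.card := Nat.mul_le_mul_left _ hmin1
      nlinarith

/-- Growth of sums of down-sets. -/
theorem down_growth {X Y : Finset (ι → ℕ)} (hX : IsLowerSet (X : Set (ι → ℕ)))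
    (hY : IsLowerSet (Y : Set (ι → ℕ))) (I : Finset ι)
    (hXI : ∀ i ∈ I, Pi.single i 1 ∈ X) (hYI : ∀ i ∈ I, Pi.single i 1 ∈ Y) :
    3 * I.card * min X.card Y.card ≤ 38 * (X + Y).card := by
  classical
  rcases I.eq_empty_or_nonempty with rfl | ⟨i₀, hi₀⟩
  · simp
  have hXne : X.Nonempty := ⟨_, hXI i₀ hi₀⟩
  have hYne : Y.Nonempty := ⟨_, hYI i₀ hi₀⟩
  have hmin1 := min_le_left X.card Y.card
  have hmin2 := min_le_right X.card Y.card
  set I1 := I.filter (fun i => mx X i < mx Y i) with hI1
  set I2 := I.filter (fun i => mx Y i < mx X i) with hI2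
  set R := I.filter (fun i => mx X i = mx Y i) with hR
  have hcardI : I.card ≤ I1.card + I2.card + R.card := by
    have : I ⊆ (I1 ∪ I2) ∪ R := by
      intro i hi
      simp only [hI1, hI2, hR, Finset.mem_union, Finset.mem_filter]
      rcases lt_trichotomy (mx X i) (mx Y i) with h | h | h
      · left; left; exact ⟨hi, h⟩
      · right; exact ⟨hi, h⟩
      · left; right; exact ⟨hi, h⟩
    have h1 := Finset.card_le_card this
    have h2 := Finset.card_union_le (I1 ∪ I2) R
    have h3 := Finset.card_union_le I1 I2
    omega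
  have t1 : X.card * I1.card ≤ (X + Y).card :=
    transl (u := fun i => mx X i + 1)
      (by
        intro i hi
        exact single_mem hY hYne i (Finset.mem_filter.mp hi).2)
      (by
        intro x hx i _
        exact Nat.lt_succ_of_le (le_mx hx i))
  have t2 : Y.card * I2.card ≤ (X + Y).card := by
    rw [add_comm X Y]
    exact transl (u := fun i => mx Y i + 1)
      (by
        intro i hi
        exact single_mem hX hXne i (Finset.mem_filter.mp hi).2)
      (by
        intro x hx i _
        exact Nat.lt_succ_of_le (le_mx hx i))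
  have t3 : 3 * R.card * min X.card Y.card ≤ 32 * (X + Y).card := by
    obtain ⟨hx, hx1, hx2⟩ := exists_median X
      (fun x => (R.filter (fun i => x i = mx X i)).card)
    obtain ⟨hy, hy1, hy2⟩ := exists_median Y
      (fun x => (R.filter (fun i => x i = mx X i)).card)
    have hm1 : ∀ i ∈ R, 1 ≤ mx X i := by
      intro i hi
      have := le_mx (hXI i (Finset.mem_filter.mp hi).1) i
      rwa [Pi.single_eq_same] at this
    have hmY : ∀ i ∈ R, mx Y i = mx X i := fun i hi => (Finset.mem_filter.mp hi).2.symm
    rcases le_total hx hy with h | h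
    · exact core hX hY hXne hYne R (mx X) hm1 (fun _ _ => rfl) hmY hx hy h hx1 hy2
    · rw [min_comm, add_comm X Y]
      exact core hY hX hYne hXne R (mx X) hm1 hmY (fun _ _ => rfl) hy hx h hy1 hx2
  have u1 : I1.card * min X.card Y.card ≤ (X + Y).card :=
    (Nat.mul_le_mul_left _ hmin1).trans (by rw [mul_comm]; exact t1)
  have u2 : I2.card * min X.card Y.card ≤ (X + Y).card :=
    (Nat.mul_le_mul_left _ hmin2).trans (by rw [mul_comm]; exact t2)
  have u3 := Nat.mul_le_mul_right (min X.card Y.card) hcardI
  nlinarith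

end K3h15.RC
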