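import Mathlib
import Pool.Agent.K3h15.RC.Down
import Pool.Agent.K3h15.RC.Comp

/-!
# Growth of difference sets of sets with many independent differences

If `A` is a finite subset of an abelian group and `a₀, a₀ + v_1, …, a₀ + v_r ∈ A` with
`v_1, …, v_r` independent over `ℤ`, then `3 * r * |A| ≤ 100 * |A - A|`.
-/

namespace K3h15.RC

open Finset Pointwise

section
variable {Γ : Type*} [AddCommGroup Γ] [DecidableEq Γ]

theorem growth (A : Finset Γ) (a₀ : Γ) (ha₀ : a₀ ∈ A) {r : ℕ} (v : Fin r → Γ)
    (hv : ∀ i, a₀ + v i ∈ A) (hli : LinearIndependent ℤ v) :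
    3 * r * A.card ≤ 100 * (A - A).card := by
  classical
  set φ : (Fin r → ℤ) →ₗ[ℤ] Γ := Fintype.linearCombination ℤ v with hφ
  have hφi : Function.Injective φ := linearIndependent_iff_injective_fintypeLinearCombination.mp hli
  have hφs : ∀ i, φ (Pi.single i 1) = v i := by
    intro i
    rw [hφ, Fintype.linearCombination_apply_single, one_smul]
  set π : Γ →ₗ[ℤ] (Γ ⧸ LinearMap.range φ) := (LinearMap.range φ).mkQ with hπ
  have hπs : Function.Surjective π := Submodule.mkQ_surjective _
  have hπe : ∀ a b : Γ, π a = π b ↔ ∃ x, b + φ x = a := by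
    intro a b
    rw [hπ, Submodule.mkQ_apply, Submodule.mkQ_apply, Submodule.Quotient.eq, LinearMap.mem_range]
    constructor
    · rintro ⟨x, hx⟩; exact ⟨x, by rw [hx]; abel⟩
    · rintro ⟨x, hx⟩; exact ⟨x, by rw [← hx]; abel⟩
  have hπφ : ∀ x, π (φ x) = 0 := by
    intro x
    rw [hπ, Submodule.mkQ_apply, Submodule.Quotient.mk_eq_zero]
    exact LinearMap.mem_range_self φ x
  obtain ⟨sect, hsect⟩ := hπs.hasRightInverse
  have hsect' : ∀ y, π (sect y) = y := hsect
  -- fibers
  have hinj : ∀ c : Γ, Function.Injective (fun x => c + φ x) := by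
    intro c x y h
    exact hφi (add_left_cancel h)
  set F : (Γ ⧸ LinearMap.range φ) → Finset (Fin r → ℤ) := fun y =>
    A.preimage (fun x => sect y + φ x) ((hinj (sect y)).injOn) with hF
  have memF : ∀ y x, x ∈ F y ↔ sect y + φ x ∈ A := by
    intro y x
    rw [hF, Finset.mem_preimage]
  set Y := A.image π with hY
  have hFcard : ∀ y, (F y).card = (A.filter (fun a => π a = y)).card := by
    intro y
    rw [← Finset.card_image_of_injective (F y) (hinj (sect y))]
    congr 1
    ext a
    rw [Finset.mem_image, Finset.mem_filter]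
    constructor
    · rintro ⟨x, hx, rfl⟩
      refine ⟨(memF y x).mp hx, ?_⟩
      rw [map_add, hπφ, add_zero, hsect']
    · rintro ⟨ha, hay⟩
      have h1 : π a = π (sect y) := by rw [hay, hsect']
      obtain ⟨x, hx⟩ := (hπe _ _).mp h1
      exact ⟨x, (memF y x).mpr (by rw [hx]; exact ha), hx⟩
  have hAcard : A.card = ∑ y ∈ Y, (F y).card := by
    rw [Finset.sum_congr rfl (fun y _ => hFcard y)]
    exact Finset.card_eq_sum_card_fiberwise (by
      intro x hx
      exact Finset.mem_coe.mpr (Finset.mem_image_of_mem _ (Finset.mem_coe.mp hx)))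
  -- sums of differences over distinct cosets
  have hsumP : ∀ (T : Finset ((Γ ⧸ LinearMap.range φ) × (Γ ⧸ LinearMap.range φ))),
      (∀ p ∈ T, ∀ q ∈ T, p.1 - p.2 = q.1 - q.2 → p = q) →
      ∑ p ∈ T, (F p.1 - F p.2).card ≤ (A - A).card := by
    intro T hT
    have h1 : ∀ p ∈ T, (F p.1 - F p.2).card ≤
        ((A - A).filter (fun z => π z = p.1 - p.2)).card := by
      intro p _
      apply Finset.card_le_card_of_injOn (fun x => (sect p.1 - sect p.2) + φ x)
      · intro x hx
        rw [Finset.mem_coe, Finset.mem_sub] at hx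
        obtain ⟨u, hu, w, hw, rfl⟩ := hx
        rw [Finset.mem_coe, Finset.mem_filter]
        constructor
        · rw [Finset.mem_sub]
          refine ⟨_, (memF _ _).mp hu, _, (memF _ _).mp hw, ?_⟩
          show _ = sect p.1 - sect p.2 + φ (u - w)
          rw [map_sub]; abel
        · rw [map_add, hπφ, add_zero, map_sub, hsect', hsect']
      · exact (hinj _).injOn
    calc ∑ p ∈ T, (F p.1 - F p.2).card
        ≤ ∑ p ∈ T, ((A - A).filter (fun z => π z = p.1 - p.2)).card := Finset.sum_le_sum h1
      _ = (T.biUnion (fun p => (A - A).filter (fun z => π z = p.1 - p.2))).card := by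
          rw [Finset.card_biUnion]
          intro p hp q hq hne
          rw [Function.onFun, Finset.disjoint_left]
          intro z hz hz'
          rw [Finset.mem_filter] at hz hz'
          exact hne (hT p hp q hq (hz.2.symm.trans hz'.2))
      _ ≤ (A - A).card := by
          apply Finset.card_le_card
          intro z hz
          rw [Finset.mem_biUnion] at hz
          obtain ⟨p, _, hz⟩ := hz
          exact (Finset.mem_filter.mp hz).1
  -- compressions
  obtain ⟨C, hC⟩ := exists_isComp r
  have hcomp : ∀ U V : Finset (Fin r → ℤ), (C U + C (-V)).card ≤ (U - V).card := by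
    intro U V
    rw [sub_eq_add_neg, ← hC.card (U + -V)]
    exact Finset.card_le_card (hC.add _ _)
  have hnotdir : ∀ U : Finset (Fin r → ℤ), ∀ x ∈ C U, ∀ i, Pi.single i 1 ∉ C U → x i < 1 := by
    intro U x hx i hi
    by_contra hcon
    push Not at hcon
    apply hi
    have hle : (Pi.single i 1 : Fin r → ℕ) ≤ x := by
      intro j
      by_cases hj : j = i
      · subst hj; rw [Pi.single_eq_same]; exact hcon
      · rw [Pi.single_eq_of_ne hj]; exact Nat.zero_le _
    exact Finset.mem_coe.mp (hC.lower U hle (Finset.mem_coe.mpr hx))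
  set y₀ := π a₀ with hy₀
  obtain ⟨x₀, hx₀⟩ : ∃ x, sect y₀ + φ x = a₀ := (hπe _ _).mp (by rw [hsect'])
  have hF0 : x₀ ∈ F y₀ := (memF _ _).mpr (by rw [hx₀]; exact ha₀)
  have hF0i : ∀ i, x₀ + Pi.single i 1 ∈ F y₀ := by
    intro i
    rw [memF, map_add, ← add_assoc, hx₀, hφs]
    exact hv i
  have hdir0 : ∀ i, Pi.single i 1 ∈ C (F y₀) := by
    intro i
    refine hC.dir _ i x₀ (x₀ + Pi.single i 1) hF0 (hF0i i) ?_ ?_
    · intro j hj
      rw [Pi.add_apply, Pi.single_eq_of_ne hj, add_zero]
    · rw [Pi.add_apply, Pi.single_eq_same]; omega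
  have hdir0' : ∀ i, Pi.single i 1 ∈ C (-F y₀) := by
    intro i
    refine hC.dir _ i (-x₀) (-(x₀ + Pi.single i 1)) (Finset.neg_mem_neg hF0)
      (Finset.neg_mem_neg (hF0i i)) ?_ ?_
    · intro j hj
      rw [Pi.neg_apply, Pi.neg_apply, Pi.add_apply, Pi.single_eq_of_ne hj, add_zero]
    · rw [Pi.neg_apply, Pi.neg_apply, Pi.add_apply, Pi.single_eq_same]; omega
  set Ep : (Γ ⧸ LinearMap.range φ) → Finset (Fin r) := fun y =>
    Finset.univ.filter (fun i => Pi.single i 1 ∈ C (F y)) with hEp
  set Em : (Γ ⧸ LinearMap.range φ) → Finset (Fin r) := fun y =>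
    Finset.univ.filter (fun i => Pi.single i 1 ∈ C (-F y)) with hEm
  have hEpc : ∀ y, (Ep y).card ≤ r := fun y => by
    have := Finset.card_le_univ (Ep y); rwa [Fintype.card_fin] at this
  have hEmc : ∀ y, (Em y).card ≤ r := fun y => by
    have := Finset.card_le_univ (Em y); rwa [Fintype.card_fin] at this
  have hcompl : ∀ E : Finset (Fin r), (Eᶜ).card = r - E.card := fun E => by
    rw [Finset.card_compl, Fintype.card_fin]
  have he : ∀ y, (F y).card * (r - (Ep y).card) ≤ (F y - F y₀).card := by
    intro y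
    refine le_trans ?_ (hcomp (F y) (F y₀))
    rw [← hC.card (F y), ← hcompl]
    apply transl (u := fun _ => 1)
    · intro i _; exact hdir0' i
    · intro x hx i hi
      apply hnotdir _ x hx i
      rw [Finset.mem_compl, hEp, Finset.mem_filter] at hi
      intro h; exact hi ⟨Finset.mem_univ _, h⟩
  have hf : ∀ y, (F y).card * (r - (Em y).card) ≤ (F y₀ - F y).card := by
    intro y
    refine le_trans ?_ (hcomp (F y₀) (F y))
    rw [← Finset.card_neg (F y), ← hC.card (-F y), ← hcompl, add_comm]
    apply transl (u := fun _ => 1)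
    · intro i _; exact hdir0 i
    · intro x hx i hi
      apply hnotdir _ x hx i
      rw [Finset.mem_compl, hEm, Finset.mem_filter] at hi
      intro h; exact hi ⟨Finset.mem_univ _, h⟩
  have hg : ∀ y y₁, (F y).card ≤ (F y₁).card →
      3 * (Ep y₁ ∩ Em y).card * (F y).card ≤ 38 * (F y₁ - F y).card := by
    intro y y₁ hle
    refine le_trans ?_ (Nat.mul_le_mul_left 38 (hcomp (F y₁) (F y)))
    have hd := down_growth (hC.lower (F y₁)) (hC.lower (-F y)) (Ep y₁ ∩ Em y)
      (by
        intro i hi
        have := (Finset.mem_inter.mp hi).1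
        rw [hEp, Finset.mem_filter] at this
        exact this.2)
      (by
        intro i hi
        have := (Finset.mem_inter.mp hi).2
        rw [hEm, Finset.mem_filter] at this
        exact this.2)
    rw [hC.card, hC.card, Finset.card_neg, min_eq_right hle] at hd
    exact hd
  -- the three classes
  set Y1 := Y.filter (fun y => 4 * (Ep y).card ≤ 3 * r) with hY1
  set Y2 := Y.filter (fun y => 4 * (Em y).card ≤ 3 * r) with hY2
  set Y3 := Y.filter (fun y => 3 * r < 4 * (Ep y).card ∧ 3 * r < 4 * (Em y).card) with hY3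
  have hsplit : A.card ≤ ∑ y ∈ Y1, (F y).card + ∑ y ∈ Y2, (F y).card + ∑ y ∈ Y3, (F y).card := by
    rw [hAcard]
    have hsub : Y ⊆ (Y1 ∪ Y2) ∪ Y3 := by
      intro y hy
      simp only [hY1, hY2, hY3, Finset.mem_union, Finset.mem_filter]
      by_cases h1 : 4 * (Ep y).card ≤ 3 * r
      · left; left; exact ⟨hy, h1⟩
      · by_cases h2 : 4 * (Em y).card ≤ 3 * r
        · left; right; exact ⟨hy, h2⟩
        · right; exact ⟨hy, by omega, by omega⟩
    calc ∑ y ∈ Y, (F y).card ≤ ∑ y ∈ (Y1 ∪ Y2) ∪ Y3, (F y).card :=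
          Finset.sum_le_sum_of_subset hsub
      _ ≤ ∑ y ∈ (Y1 ∪ Y2), (F y).card + ∑ y ∈ Y3, (F y).card := by
          rw [← Finset.sum_union_inter]; omega
      _ ≤ _ := by
          have := Finset.sum_union_inter (s₁ := Y1) (s₂ := Y2) (f := fun y => (F y).card)
          omega
  have b1 : r * ∑ y ∈ Y1, (F y).card ≤ 4 * (A - A).card := by
    have h1 := hsumP (Y1.image (fun y => (y, y₀))) (by
      intro p hp q hq hpq
      rw [Finset.mem_image] at hp hq
      obtain ⟨y, _, rfl⟩ := hp
      obtain ⟨y', _, rfl⟩ := hq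
      simp only [sub_left_inj] at hpq
      rw [hpq])
    rw [Finset.sum_image (by intro y _ y' _ h; exact (Prod.mk.inj h).1)] at h1
    simp only at h1
    calc r * ∑ y ∈ Y1, (F y).card = ∑ y ∈ Y1, r * (F y).card := Finset.mul_sum _ _ _
      _ ≤ ∑ y ∈ Y1, 4 * (F y - F y₀).card := by
          apply Finset.sum_le_sum
          intro y hy
          have h2 := he y
          have h3 := (Finset.mem_filter.mp hy).2
          have h4 : r ≤ 4 * (r - (Ep y).card) := by have := hEpc y; omega
          calc r * (F y).card ≤ (4 * (r - (Ep y).card)) * (F y).card := Nat.mul_le_mul_right _ h4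
            _ = 4 * ((F y).card * (r - (Ep y).card)) := by ring
            _ ≤ _ := Nat.mul_le_mul_left _ h2
      _ = 4 * ∑ y ∈ Y1, (F y - F y₀).card := by rw [Finset.mul_sum]
      _ ≤ _ := Nat.mul_le_mul_left _ h1
  have b2 : r * ∑ y ∈ Y2, (F y).card ≤ 4 * (A - A).card := by
    have h1 := hsumP (Y2.image (fun y => (y₀, y))) (by
      intro p hp q hq hpq
      rw [Finset.mem_image] at hp hq
      obtain ⟨y, _, rfl⟩ := hp
      obtain ⟨y', _, rfl⟩ := hq
      simp only [sub_right_inj] at hpq
      rw [hpq])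
    rw [Finset.sum_image (by intro y _ y' _ h; exact (Prod.mk.inj h).2)] at h1
    simp only at h1
    calc r * ∑ y ∈ Y2, (F y).card = ∑ y ∈ Y2, r * (F y).card := Finset.mul_sum _ _ _
      _ ≤ ∑ y ∈ Y2, 4 * (F y₀ - F y).card := by
          apply Finset.sum_le_sum
          intro y hy
          have h2 := hf y
          have h3 := (Finset.mem_filter.mp hy).2
          have h4 : r ≤ 4 * (r - (Em y).card) := by have := hEmc y; omega
          calc r * (F y).card ≤ (4 * (r - (Em y).card)) * (F y).card := Nat.mul_le_mul_right _ h4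
            _ = 4 * ((F y).card * (r - (Em y).card)) := by ring
            _ ≤ _ := Nat.mul_le_mul_left _ h2
      _ = 4 * ∑ y ∈ Y2, (F y₀ - F y).card := by rw [Finset.mul_sum]
      _ ≤ _ := Nat.mul_le_mul_left _ h1
  have b3 : 3 * (r * ∑ y ∈ Y3, (F y).card) ≤ 76 * (A - A).card := by
    rcases Y3.eq_empty_or_nonempty with h0 | hne
    · rw [h0]; simp
    obtain ⟨y₁, hy₁, hmax⟩ := Finset.exists_max_image Y3 (fun y => (F y).card) hne
    have h1 := hsumP (Y3.image (fun y => (y₁, y))) (by
      intro p hp q hq hpq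
      rw [Finset.mem_image] at hp hq
      obtain ⟨y, _, rfl⟩ := hp
      obtain ⟨y', _, rfl⟩ := hq
      simp only [sub_right_inj] at hpq
      rw [hpq])
    rw [Finset.sum_image (by intro y _ y' _ h; exact (Prod.mk.inj h).2)] at h1
    simp only at h1
    calc 3 * (r * ∑ y ∈ Y3, (F y).card) = ∑ y ∈ Y3, 3 * (r * (F y).card) := by
          rw [Finset.mul_sum, Finset.mul_sum]
      _ ≤ ∑ y ∈ Y3, 76 * (F y₁ - F y).card := by
          apply Finset.sum_le_sum
          intro y hy
          have h2 := hg y y₁ (hmax y hy)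
          have h3 := (Finset.mem_filter.mp hy).2
          have h3' := (Finset.mem_filter.mp hy₁).2
          have h5 := Finset.card_union_add_card_inter (Ep y₁) (Em y)
          have h6 := Finset.card_le_univ (Ep y₁ ∪ Em y)
          rw [Fintype.card_fin] at h6
          have h4 : r ≤ 2 * (Ep y₁ ∩ Em y).card := by omega
          calc 3 * (r * (F y).card) ≤ 3 * ((2 * (Ep y₁ ∩ Em y).card) * (F y).card) := by gcongr
            _ = 2 * (3 * (Ep y₁ ∩ Em y).card * (F y).card) := by ring
            _ ≤ 2 * (38 * (F y₁ - F y).card) := Nat.mul_le_mul_left _ h2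
            _ = _ := by ring
      _ = 76 * ∑ y ∈ Y3, (F y₁ - F y).card := by rw [Finset.mul_sum]
      _ ≤ _ := Nat.mul_le_mul_left _ h1
  have hfin := Nat.mul_le_mul_left (3 * r) hsplit
  nlinarith

end

end K3h15.RC
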