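import Mathlib

/-!
# Cheap spanning walks in difference graphs

Let `A` be a finite nonempty subset of an abelian group, `s = |A|` and `M = |A - A|`. Then there
are differences `d 0, …, d (t-1)` and a closed walk of length `2 (s - 1)` with steps `± d i`
which visits exactly the points of `A`, uses every label `i < t`, and whose labels sum up to at
most `4 * M`.
-/

namespace K3h15.RC

open Finset Pointwise

variable {G : Type*} [AddCommGroup G] [DecidableEq G]

/-- rooted trees with labelled edges: `Tr x S L` means that `S` is the vertex set of a tree with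
root `x` whose edges carry the labels `L`; an edge with label `(j, g)` joins `b` and `b + g`. -/
inductive Tr : G → Finset G → Multiset (ℕ × G) → Prop
  | single (x : G) : Tr x {x} 0
  | graft {y : G} {S : Finset G} {L : Multiset (ℕ × G)} {b : G} (j : ℕ) {g : G} {S' : Finset G}
      {L' : Multiset (ℕ × G)} (h : Tr y S L) (hb : b ∈ S) (h' : Tr (b + g) S' L')
      (hd : Disjoint S S') : Tr y (S ∪ S') (L + L' + {(j, g)})

lemma Tr.root_mem {x : G} {S : Finset G} {L : Multiset (ℕ × G)} (h : Tr x S L) : x ∈ S := by
  induction h with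
  | single x => exact Finset.mem_singleton_self x
  | graft j h hb h' hd ih ih' => exact Finset.mem_union_left _ ih

lemma Tr.card {x : G} {S : Finset G} {L : Multiset (ℕ × G)} (h : Tr x S L) :
    S.card = L.card + 1 := by
  induction h with
  | single x => simp
  | graft j h hb h' hd ih ih' =>
    rw [Finset.card_union_of_disjoint hd, ih, ih', Multiset.card_add, Multiset.card_add,
      Multiset.card_singleton]
    omega

/-- value of a step -/
def sval (σ : Bool × (ℕ × G)) : G := if σ.1 then σ.2.2 else -σ.2.2

/-- the points visited by a walk -/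
def visits : G → List (Bool × (ℕ × G)) → Finset G
  | x, [] => {x}
  | x, σ :: w => insert x (visits (x + sval σ) w)

/-- the end point of a walk -/
def endp : G → List (Bool × (ℕ × G)) → G
  | x, [] => x
  | x, σ :: w => endp (x + sval σ) w

lemma self_mem_visits (x : G) (w : List (Bool × (ℕ × G))) : x ∈ visits x w := by
  cases w with
  | nil => exact Finset.mem_singleton_self x
  | cons σ w => exact Finset.mem_insert_self _ _

omit [DecidableEq G] in
lemma endp_append (x : G) (w w' : List (Bool × (ℕ × G))) :
    endp x (w ++ w') = endp (endp x w) w' := by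
  induction w generalizing x with
  | nil => rfl
  | cons σ w ih => exact ih _

lemma visits_append (x : G) (w w' : List (Bool × (ℕ × G))) :
    visits x (w ++ w') = visits x w ∪ visits (endp x w) w' := by
  induction w generalizing x with
  | nil =>
    simp only [List.nil_append, visits, endp]
    symm
    rw [Finset.union_eq_right, Finset.singleton_subset_iff]
    exact self_mem_visits x w'
  | cons σ w ih =>
    simp only [List.cons_append, visits, endp]
    rw [ih, Finset.insert_union]

lemma exists_split {x z : G} {w : List (Bool × (ℕ × G))} (hz : z ∈ visits x w) :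
    ∃ w₁ w₂, w = w₁ ++ w₂ ∧ endp x w₁ = z := by
  induction w generalizing x with
  | nil =>
    simp only [visits, Finset.mem_singleton] at hz
    exact ⟨[], [], rfl, hz.symm⟩
  | cons σ w ih =>
    simp only [visits, Finset.mem_insert] at hz
    rcases hz with rfl | hz
    · exact ⟨[], σ :: w, rfl, rfl⟩
    · obtain ⟨w₁, w₂, rfl, h⟩ := ih hz
      exact ⟨σ :: w₁, w₂, rfl, h⟩

theorem Tr.walk {y : G} {S : Finset G} {L : Multiset (ℕ × G)} (h : Tr y S L) :
    ∃ w : List (Bool × (ℕ × G)), endp y w = y ∧ visits y w = S ∧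
      ((w.map Prod.snd : List (ℕ × G)) : Multiset (ℕ × G)) = L + L := by
  induction h with
  | single x => exact ⟨[], rfl, rfl, rfl⟩
  | @graft y S L b j g S' L' h hb h' hd ih ih' =>
    obtain ⟨w, hw1, hw2, hw3⟩ := ih
    obtain ⟨w', hw1', hw2', hw3'⟩ := ih'
    rw [← hw2] at hb
    obtain ⟨w₁, w₂, rfl, hw₁⟩ := exists_split hb
    rw [endp_append, hw₁] at hw1
    rw [visits_append, hw₁] at hw2
    refine ⟨w₁ ++ ((true, (j, g)) :: (w' ++ ((false, (j, g)) :: w₂))), ?_, ?_, ?_⟩
    · rw [endp_append, hw₁]
      simp only [endp]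
      rw [endp_append]
      have h1 : b + sval (true, (j, g)) = b + g := by simp [sval]
      rw [h1, hw1']
      simp only [endp]
      have h2 : b + g + sval (false, (j, g)) = b := by simp [sval]
      rw [h2, hw1]
    · rw [visits_append, hw₁]
      simp only [visits]
      rw [visits_append]
      have h1 : b + sval (true, (j, g)) = b + g := by simp [sval]
      rw [h1, hw1', hw2']
      simp only [visits]
      have h2 : b + g + sval (false, (j, g)) = b := by simp [sval]
      rw [h2]
      have hbg : b + g ∈ S' := h'.root_mem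
      have hb2 : b ∈ visits b w₂ := self_mem_visits _ _
      rw [← hw2]
      ext z
      simp only [Finset.mem_union, Finset.mem_insert]
      constructor
      · rintro (h | rfl | h | rfl | h)
        · left; left; exact h
        · left; right; exact hb2
        · right; exact h
        · right; exact hbg
        · left; right; exact h
      · rintro ((h | h) | h)
        · left; exact h
        · right; right; right; right; exact h
        · right; right; left; exact h
    · have e1 : ((List.map Prod.snd w₁ : List (ℕ × G)) : Multiset (ℕ × G)) +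
          ((List.map Prod.snd w₂ : List (ℕ × G)) : Multiset (ℕ × G)) = L + L := by
        rw [Multiset.coe_add, ← List.map_append]; exact hw3
      have e2 : ((List.map Prod.snd (w₁ ++ ((true, (j, g)) :: (w' ++ ((false, (j, g)) :: w₂)))) :
          List (ℕ × G)) : Multiset (ℕ × G)) =
          ((List.map Prod.snd w₁ : List (ℕ × G)) : Multiset (ℕ × G)) + ({(j, g)} +
          (((List.map Prod.snd w' : List (ℕ × G)) : Multiset (ℕ × G)) + ({(j, g)} +
          ((List.map Prod.snd w₂ : List (ℕ × G)) : Multiset (ℕ × G))))) := by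
        simp only [List.map_append, List.map_cons, ← Multiset.coe_add, ← Multiset.cons_coe,
          Multiset.singleton_add]
      rw [e2, hw3']
      calc _ = (((List.map Prod.snd w₁ : List (ℕ × G)) : Multiset (ℕ × G)) +
          ((List.map Prod.snd w₂ : List (ℕ × G)) : Multiset (ℕ × G))) +
            (L' + L' + {(j, g)} + {(j, g)}) := by abel
        _ = _ := by rw [e1]; abel

/-- forests with vertex set `A` and set of roots `X` -/
structure Forest (A X : Finset G) (S : G → Finset G) (L : Multiset (ℕ × G)) : Prop where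
  ex : ∃ l : G → Multiset (ℕ × G), (∀ x ∈ X, Tr x (S x) (l x)) ∧ L = ∑ x ∈ X, l x
  disj : ∀ x ∈ X, ∀ y ∈ X, x ≠ y → Disjoint (S x) (S y)
  cover : X.biUnion S = A

lemma Forest.merge {A X : Finset G} {S : G → Finset G} {L : Multiset (ℕ × G)}
    (h : Forest A X S L) {x y g : G} (j : ℕ) (hx : x ∈ X) (hy : y ∈ X) (hxy : y ≠ x)
    (hb : x - g ∈ S y) :
    Forest A (X.erase x) (Function.update S y (S y ∪ S x)) (L + {(j, g)}) := by
  obtain ⟨l, hl, hL⟩ := h.ex
  have hyX : y ∈ X.erase x := Finset.mem_erase.mpr ⟨hxy, hy⟩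
  refine ⟨⟨Function.update l y (l y + l x + {(j, g)}), ?_, ?_⟩, ?_, ?_⟩
  · intro z hz
    by_cases hzy : z = y
    · subst hzy
      rw [Function.update_self, Function.update_self]
      refine Tr.graft j (hl z hy) hb ?_ (h.disj z hy x hx hxy)
      rw [sub_add_cancel]
      exact hl x hx
    · rw [Function.update_of_ne hzy, Function.update_of_ne hzy]
      exact hl z (Finset.mem_of_mem_erase hz)
  · rw [← Finset.add_sum_erase _ _ hyX, Function.update_self]
    have e1 : ∑ z ∈ (X.erase x).erase y, Function.update l y (l y + l x + {(j, g)}) z =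
        ∑ z ∈ (X.erase x).erase y, l z := by
      apply Finset.sum_congr rfl
      intro z hz
      rw [Function.update_of_ne (Finset.ne_of_mem_erase hz)]
    rw [e1, hL, ← Finset.add_sum_erase X l hx, ← Finset.add_sum_erase (X.erase x) l hyX]
    abel
  · intro z hz z' hz' hne
    by_cases hzy : z = y
    · subst hzy
      have hz'z : z' ≠ z := fun h => hne h.symm
      rw [Function.update_self, Function.update_of_ne hz'z, Finset.disjoint_union_left]
      exact ⟨h.disj _ hy _ (Finset.mem_of_mem_erase hz') hne,
        h.disj _ hx _ (Finset.mem_of_mem_erase hz') (Finset.ne_of_mem_erase hz').symm⟩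
    · by_cases hz'y : z' = y
      · subst hz'y
        rw [Function.update_self, Function.update_of_ne hzy, Finset.disjoint_union_right]
        exact ⟨h.disj _ (Finset.mem_of_mem_erase hz) _ hy hne,
          h.disj _ (Finset.mem_of_mem_erase hz) _ hx (Finset.ne_of_mem_erase hz)⟩
      · rw [Function.update_of_ne hzy, Function.update_of_ne hz'y]
        exact h.disj _ (Finset.mem_of_mem_erase hz) _ (Finset.mem_of_mem_erase hz') hne
  · rw [← h.cover]
    ext z
    rw [Finset.mem_biUnion, Finset.mem_biUnion]
    constructor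
    · rintro ⟨u, hu, hz⟩
      by_cases huy : u = y
      · subst huy
        rw [Function.update_self, Finset.mem_union] at hz
        rcases hz with hz | hz
        · exact ⟨u, hy, hz⟩
        · exact ⟨x, hx, hz⟩
      · rw [Function.update_of_ne huy] at hz
        exact ⟨u, Finset.mem_of_mem_erase hu, hz⟩
    · rintro ⟨u, hu, hz⟩
      by_cases hux : u = x
      · subst hux
        refine ⟨y, hyX, ?_⟩
        rw [Function.update_self]
        exact Finset.mem_union_right _ hz
      · refine ⟨u, Finset.mem_erase.mpr ⟨hux, hu⟩, ?_⟩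
        by_cases huy : u = y
        · subst huy
          rw [Function.update_self]
          exact Finset.mem_union_left _ hz
        · rw [Function.update_of_ne huy]; exact hz

lemma Forest.batch {A : Finset G} (f : G → ℤ) (j : ℕ) (g : G) (n : ℕ) :
    ∀ (U X : Finset G) (S : G → Finset G) (L : Multiset (ℕ × G)), U.card = n → U ⊆ X →
      Forest A X S L → (∀ x ∈ U, ∃ y ∈ X, f y < f x ∧ x - g ∈ S y) →
      ∃ S', Forest A (X \ U) S' (L + Multiset.replicate n (j, g)) := by
  induction n with
  | zero =>
    intro U X S L hU _ h _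
    rw [Finset.card_eq_zero] at hU
    subst hU
    refine ⟨S, ?_⟩
    rw [Finset.sdiff_empty, Multiset.replicate_zero, add_zero]
    exact h
  | succ n ih =>
    intro U X S L hU hUX h hgood
    have hne : U.Nonempty := Finset.card_pos.mp (by omega)
    obtain ⟨x, hx, hmax⟩ := Finset.exists_max_image U f hne
    obtain ⟨y, hy, hyx, hb⟩ := hgood x hx
    have hyne : y ≠ x := by
      rintro rfl
      exact lt_irrefl _ hyx
    have hm := h.merge j (hUX hx) hy hyne hb
    have hcard : (U.erase x).card = n := by
      rw [Finset.card_erase_of_mem hx, hU]; omega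
    obtain ⟨S', hS'⟩ := ih (U.erase x) (X.erase x) _ _ hcard (Finset.erase_subset_erase _ hUX) hm (by
      intro x' hx'
      obtain ⟨y', hy', hyx', hb'⟩ := hgood x' (Finset.mem_of_mem_erase hx')
      have h1 : f x' ≤ f x := hmax x' (Finset.mem_of_mem_erase hx')
      have hy'x : y' ≠ x := by
        rintro rfl
        omega
      refine ⟨y', Finset.mem_erase.mpr ⟨hy'x, hy'⟩, hyx', ?_⟩
      by_cases hy'y : y' = y
      · subst hy'y
        rw [Function.update_self]
        exact Finset.mem_union_left _ hb'
      · rw [Function.update_of_ne hy'y]; exact hb')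
    refine ⟨S', ?_⟩
    have e1 : X.erase x \ U.erase x = X \ U := by
      ext z
      simp only [Finset.mem_sdiff, Finset.mem_erase]
      constructor
      · rintro ⟨⟨h1, h2⟩, h3⟩
        exact ⟨h2, fun h4 => h3 ⟨h1, h4⟩⟩
      · rintro ⟨h1, h2⟩
        refine ⟨⟨?_, h1⟩, fun h3 => h2 h3.2⟩
        rintro rfl
        exact h2 hx
    have e2 : L + {(j, g)} + Multiset.replicate n (j, g) =
        L + Multiset.replicate (n + 1) (j, g) := by
      rw [Multiset.replicate_succ, ← Multiset.singleton_add, add_assoc]
    rw [e1, e2] at hS'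
    exact hS'

lemma Forest.subset {A X : Finset G} {S : G → Finset G} {L : Multiset (ℕ × G)}
    (h : Forest A X S L) : X ⊆ A := by
  intro x hx
  obtain ⟨l, hl, _⟩ := h.ex
  rw [← h.cover, Finset.mem_biUnion]
  exact ⟨x, hx, (hl x hx).root_mem⟩

/-- the good pairs -/
lemma Forest.pairs {A X : Finset G} {S : G → Finset G} {L : Multiset (ℕ × G)}
    (h : Forest A X S L) (f : G → ℤ) (hf : Function.Injective f) :
    (X.card - 1) * A.card ≤
      ((X ×ˢ A).filter (fun p => ∃ y ∈ X, f y < f p.1 ∧ p.2 ∈ S y)).card +
      ((X ×ˢ A).filter (fun p => ∃ y ∈ X, (-f) y < (-f) p.1 ∧ p.2 ∈ S y)).card := by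
  have h1 : ((X ×ˢ A).filter (fun p => p.2 ∈ S p.1)).card = A.card := by
    have e : ((X ×ˢ A).filter (fun p => p.2 ∈ S p.1)).card = ∑ x ∈ X, (S x).card := by
      rw [Finset.card_filter, Finset.sum_product]
      apply Finset.sum_congr rfl
      intro x hx
      rw [← Finset.card_filter]
      congr 1
      ext b
      rw [Finset.mem_filter]
      constructor
      · exact fun h => h.2
      · intro hb
        refine ⟨?_, hb⟩
        rw [← h.cover, Finset.mem_biUnion]
        exact ⟨x, hx, hb⟩
    rw [e, ← h.cover, Finset.card_biUnion]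
    exact h.disj
  have h2 := Finset.card_filter_add_card_filter_not (s := X ×ˢ A) (p := fun p => p.2 ∈ S p.1)
  rw [h1, Finset.card_product] at h2
  have h3 : ((X ×ˢ A).filter (fun p => ¬ p.2 ∈ S p.1)) ⊆
      ((X ×ˢ A).filter (fun p => ∃ y ∈ X, f y < f p.1 ∧ p.2 ∈ S y)) ∪
      ((X ×ˢ A).filter (fun p => ∃ y ∈ X, (-f) y < (-f) p.1 ∧ p.2 ∈ S y)) := by
    intro p hp
    rw [Finset.mem_filter] at hp
    rw [Finset.mem_union, Finset.mem_filter, Finset.mem_filter]
    have hb := (Finset.mem_product.mp hp.1).2
    rw [← h.cover, Finset.mem_biUnion] at hb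
    obtain ⟨y, hy, hb⟩ := hb
    have hne : f y ≠ f p.1 := by
      intro he
      have := hf he
      subst this
      exact hp.2 hb
    rcases lt_or_gt_of_ne hne with hlt | hgt
    · left; exact ⟨hp.1, y, hy, hlt, hb⟩
    · right; exact ⟨hp.1, y, hy, by simpa using hgt, hb⟩
  have h4 := (Finset.card_le_card h3).trans (Finset.card_union_le _ _)
  have h5 : (X.card - 1) * A.card = X.card * A.card - A.card := by
    rw [Nat.sub_mul, one_mul]
  omega

lemma Forest.pigeon {A X : Finset G} {S : G → Finset G} {L : Multiset (ℕ × G)}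
    (h : Forest A X S L) (hA : A.Nonempty) (f : G → ℤ) :
    ∃ g, ∃ U ⊆ X, (∀ x ∈ U, ∃ y ∈ X, f y < f x ∧ x - g ∈ S y) ∧
      ((X ×ˢ A).filter (fun p => ∃ y ∈ X, f y < f p.1 ∧ p.2 ∈ S y)).card ≤
        U.card * (A - A).card := by
  set P := (X ×ˢ A).filter (fun p => ∃ y ∈ X, f y < f p.1 ∧ p.2 ∈ S y) with hP
  have hmaps : Set.MapsTo (fun p : G × G => p.1 - p.2) (P : Set (G × G)) ((A - A : Finset G) : Set G) := by
    intro p hp
    rw [Finset.mem_coe, hP, Finset.mem_filter, Finset.mem_product] at hp
    exact Finset.mem_coe.mpr (Finset.sub_mem_sub (h.subset hp.1.1) hp.1.2)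
  have hcard := Finset.card_eq_sum_card_fiberwise hmaps
  obtain ⟨g, hg, hmax⟩ := Finset.exists_max_image (A - A)
    (fun g => (P.filter (fun p => p.1 - p.2 = g)).card) (hA.sub hA)
  refine ⟨g, X.filter (fun x => ∃ y ∈ X, f y < f x ∧ x - g ∈ S y), Finset.filter_subset _ _, ?_, ?_⟩
  · intro x hx
    exact (Finset.mem_filter.mp hx).2
  · have h1 : (P.filter (fun p => p.1 - p.2 = g)).card ≤
        (X.filter (fun x => ∃ y ∈ X, f y < f x ∧ x - g ∈ S y)).card := by
      apply Finset.card_le_card_of_injOn (fun p => p.1)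
      · intro p hp
        rw [Finset.mem_coe, Finset.mem_filter, hP, Finset.mem_filter, Finset.mem_product] at hp
        obtain ⟨⟨⟨hp1, hp2⟩, y, hy, hlt, hpy⟩, hpg⟩ := hp
        rw [Finset.mem_coe, Finset.mem_filter]
        refine ⟨hp1, y, hy, hlt, ?_⟩
        have : p.1 - g = p.2 := by rw [← hpg]; abel
        rw [this]; exact hpy
      · intro p hp q hq hpq
        rw [Finset.mem_coe, Finset.mem_filter] at hp hq
        have e1 : p.2 = p.1 - g := by rw [← hp.2]; abel
        have e2 : q.2 = q.1 - g := by rw [← hq.2]; abel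
        ext
        · exact hpq
        · rw [e1, e2]; exact congrArg (· - g) hpq
    calc P.card = ∑ g' ∈ A - A, (P.filter (fun p => p.1 - p.2 = g')).card := hcard
      _ ≤ ∑ g' ∈ A - A, (P.filter (fun p => p.1 - p.2 = g)).card :=
          Finset.sum_le_sum (fun g' hg' => hmax g' hg')
      _ = (A - A).card * (P.filter (fun p => p.1 - p.2 = g)).card := by
          rw [Finset.sum_const, smul_eq_mul]
      _ ≤ (A - A).card * _ := Nat.mul_le_mul_left _ h1
      _ = _ := mul_comm _ _

lemma Forest.good [Countable G] {A X : Finset G} {S : G → Finset G} {L : Multiset (ℕ × G)}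
    (h : Forest A X S L) (hA : A.Nonempty) :
    ∃ f : G → ℤ, Function.Injective f ∧ ∃ g, ∃ U ⊆ X,
      (∀ x ∈ U, ∃ y ∈ X, f y < f x ∧ x - g ∈ S y) ∧
      (X.card - 1) * A.card ≤ 2 * (U.card * (A - A).card) := by
  obtain ⟨f₀, hf₀⟩ := Countable.exists_injective_nat G
  set f : G → ℤ := fun x => (f₀ x : ℤ) with hf
  have hfi : Function.Injective f := fun x y hxy => hf₀ (by simpa [hf] using hxy)
  have hfi' : Function.Injective (-f) := fun x y hxy => hfi (by simpa using hxy)
  have hp := h.pairs f hfi
  obtain ⟨g, U, hU, hU1, hU2⟩ := h.pigeon hA f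
  obtain ⟨g', U', hU', hU1', hU2'⟩ := h.pigeon hA (-f)
  by_cases hc : (X.card - 1) * A.card ≤
      2 * ((X ×ˢ A).filter (fun p => ∃ y ∈ X, f y < f p.1 ∧ p.2 ∈ S y)).card
  · exact ⟨f, hfi, g, U, hU, hU1, by omega⟩
  · exact ⟨-f, hfi', g', U', hU', hU1', by omega⟩

theorem greedy [Countable G] {A : Finset G} (hA : A.Nonempty) : ∀ (m : ℕ) (X : Finset G)
    (S : G → Finset G) (L : Multiset (ℕ × G)) (j : ℕ) (d : ℕ → G), X.card = m → 1 ≤ m →
    Forest A X S L → (∀ p ∈ L, p.1 < j ∧ p.2 = d p.1) → (∀ i < j, ∃ p ∈ L, p.1 = i) →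
    ∃ (t : ℕ) (d' : ℕ → G) (x₀ : G) (L' : Multiset (ℕ × G)), Tr x₀ A L' ∧
      (∀ p ∈ L', p.1 < t ∧ p.2 = d' p.1) ∧ (∀ i < t, ∃ p ∈ L', p.1 = i) ∧
      A.card * (L'.map Prod.fst).sum ≤ A.card * (L.map Prod.fst).sum +
        (m - 1) * (j * A.card + 2 * (A - A).card) := by
  intro m
  induction m using Nat.strong_induction_on with
  | _ m ih =>
    intro X S L j d hX hm h hL hj
    rcases Nat.lt_or_ge m 2 with h2 | h2
    · have hm1 : m = 1 := by omega
      rw [hm1, Finset.card_eq_one] at hX
      obtain ⟨x₀, rfl⟩ := hX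
      obtain ⟨l, hl, hLl⟩ := h.ex
      have hc := h.cover
      rw [Finset.singleton_biUnion] at hc
      have htr := hl x₀ (Finset.mem_singleton_self _)
      rw [Finset.sum_singleton] at hLl
      rw [hc, ← hLl] at htr
      exact ⟨j, d, x₀, L, htr, hL, hj, by omega⟩
    · obtain ⟨f, hf, g, U, hU, hU1, hU2⟩ := h.good hA
      obtain ⟨S', hS'⟩ := Forest.batch f j g U.card U X S L rfl hU h hU1
      have hApos : 0 < A.card := Finset.card_pos.mpr hA
      have hUpos : 1 ≤ U.card := by
        by_contra hcon
        have h0 : U.card = 0 := by omega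
        rw [h0, hX] at hU2
        have : 0 < (m - 1) * A.card := Nat.mul_pos (by omega) hApos
        omega
      have hXne : X.Nonempty := Finset.card_pos.mp (by omega)
      have hlt : U.card < X.card := by
        apply Finset.card_lt_card
        rw [Finset.ssubset_iff_of_subset hU]
        obtain ⟨x, hx, hmin⟩ := Finset.exists_min_image X f hXne
        refine ⟨x, hx, fun hxU => ?_⟩
        obtain ⟨y, hy, hyx, _⟩ := hU1 x hxU
        have := hmin y hy
        omega
      have hcard : (X \ U).card = m - U.card := by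
        rw [Finset.card_sdiff_of_subset hU, hX]
      obtain ⟨t, d', x₀, L', hT, hL', hj', hcost⟩ := ih (m - U.card) (by omega) (X \ U) S'
        (L + Multiset.replicate U.card (j, g)) (j + 1) (Function.update d j g) hcard (by omega) hS'
        (by
          intro p hp
          rw [Multiset.mem_add] at hp
          rcases hp with hp | hp
          · obtain ⟨h1, h2⟩ := hL p hp
            refine ⟨by omega, ?_⟩
            rw [Function.update_of_ne (by omega)]
            exact h2
          · have := Multiset.eq_of_mem_replicate hp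
            subst this
            exact ⟨by simp, by simp⟩)
        (by
          intro i hi
          rcases Nat.lt_or_ge i j with h1 | h1
          · obtain ⟨p, hp, hpi⟩ := hj i h1
            exact ⟨p, Multiset.mem_add.mpr (Or.inl hp), hpi⟩
          · have : i = j := by omega
            subst this
            refine ⟨(i, g), Multiset.mem_add.mpr (Or.inr ?_), rfl⟩
            rw [Multiset.mem_replicate]
            exact ⟨by omega, rfl⟩)
      refine ⟨t, d', x₀, L', hT, hL', hj', hcost.trans ?_⟩
      rw [Multiset.map_add, Multiset.sum_add, Multiset.map_replicate, Multiset.sum_replicate,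
        smul_eq_mul]
      simp only
      obtain ⟨k, hk⟩ : ∃ k, m - 1 = U.card + k := ⟨m - 1 - U.card, by omega⟩
      have hk' : m - U.card - 1 = k := by omega
      rw [hX, hk] at hU2
      rw [hk', hk]
      nlinarith

/-- Cheap spanning walks. -/
theorem exists_walk [Countable G] {A : Finset G} (hA : A.Nonempty) :
    ∃ (t : ℕ) (d : ℕ → G) (x₀ : G) (w : List (Bool × (ℕ × G))), visits x₀ w = A ∧
      w.length = 2 * (A.card - 1) ∧ (w.map (fun σ => σ.2.1)).sum ≤ 4 * (A - A).card ∧
      (∀ σ ∈ w, σ.2.1 < t ∧ σ.2.2 = d σ.2.1) ∧ (∀ i < t, ∃ σ ∈ w, σ.2.1 = i) ∧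
      t * (t - 1) ≤ 4 * (A - A).card := by
  have hF : Forest A A (fun x => {x}) 0 := by
    refine ⟨⟨fun _ => 0, fun x _ => Tr.single x, by simp⟩, ?_, ?_⟩
    · intro x _ y _ hxy
      exact Finset.disjoint_singleton.mpr hxy
    · exact Finset.biUnion_singleton_eq_self
  obtain ⟨t, d, x₀, L, hT, hL, hj, hcost⟩ := greedy hA A.card A _ 0 0 (fun _ => 0) rfl
    (Finset.card_pos.mpr hA) hF (by simp) (by simp)
  have hApos : 0 < A.card := Finset.card_pos.mpr hA
  have hcost' : (L.map Prod.fst).sum ≤ 2 * (A - A).card := by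
    have h1 : A.card * (L.map Prod.fst).sum ≤ A.card * (2 * (A - A).card) := by
      refine hcost.trans ?_
      simp only [Multiset.map_zero, Multiset.sum_zero, mul_zero, zero_mul, zero_add]
      exact Nat.mul_le_mul_right _ (Nat.sub_le _ _)
    exact Nat.le_of_mul_le_mul_left h1 hApos
  obtain ⟨w, hw1, hw2, hw3⟩ := hT.walk
  have hmem : ∀ σ ∈ w, σ.2 ∈ L := by
    intro σ hσ
    have h1 : σ.2 ∈ ((w.map Prod.snd : List (ℕ × G)) : Multiset (ℕ × G)) := by
      rw [Multiset.mem_coe]
      exact List.mem_map_of_mem hσ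
    rw [hw3, Multiset.mem_add] at h1
    tauto
  have hmem' : ∀ p ∈ L, ∃ σ ∈ w, σ.2 = p := by
    intro p hp
    have h1 : p ∈ ((w.map Prod.snd : List (ℕ × G)) : Multiset (ℕ × G)) := by
      rw [hw3, Multiset.mem_add]; left; exact hp
    rw [Multiset.mem_coe, List.mem_map] at h1
    exact h1
  refine ⟨t, d, x₀, w, hw2, ?_, ?_, ?_, ?_, ?_⟩
  · have h1 := congrArg Multiset.card hw3
    rw [Multiset.coe_card, List.length_map, Multiset.card_add] at h1
    have h2 := hT.card
    omega
  · have h1 := congrArg (fun m => (Multiset.map Prod.fst m).sum) hw3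
    simp only [Multiset.map_coe, List.map_map, Multiset.sum_coe, Multiset.map_add,
      Multiset.sum_add] at h1
    have h2 : (w.map (fun σ => σ.2.1)).sum = (List.map (Prod.fst ∘ Prod.snd) w).sum := rfl
    rw [h2, h1]
    omega
  · intro σ hσ
    exact hL _ (hmem σ hσ)
  · intro i hi
    obtain ⟨p, hp, hpi⟩ := hj i hi
    obtain ⟨σ, hσ, hσp⟩ := hmem' p hp
    exact ⟨σ, hσ, by rw [hσp]; exact hpi⟩
  · have hle : (Finset.range t).val ≤ L.map Prod.fst := by
      rw [Multiset.le_iff_subset (Finset.range t).nodup]
      intro i hi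
      have hi' : i < t := by simpa using hi
      obtain ⟨p, hp, hpi⟩ := hj i hi'
      rw [Multiset.mem_map]
      exact ⟨p, hp, hpi⟩
    obtain ⟨u, hu⟩ := Multiset.le_iff_exists_add.mp hle
    have h1 : (∑ i ∈ Finset.range t, i) ≤ (L.map Prod.fst).sum := by
      rw [hu, Multiset.sum_add]
      have : (Finset.range t).val.sum = ∑ i ∈ Finset.range t, i := by
        rw [Finset.sum]; simp
      omega
    have h2 := Finset.sum_range_id_mul_two t
    omega

end K3h15.RC
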