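import Mathlib
import Pool.Agent.K3h15.RC.Growth
import Pool.Agent.K3h15.RC.Tree

/-!
# Formal positions of a walk and relations between them
-/

namespace K3h15.RC

open Finset Pointwise

/-- formal step -/
def svec {t : ℕ} (σ : Bool × Fin t) : Fin t → ℤ :=
  if σ.1 then Pi.single σ.2 1 else -Pi.single σ.2 1

/-- formal position after `i` steps -/
def pos {t ℓ : ℕ} (w : Fin ℓ → Bool × Fin t) (i : ℕ) : Fin t → ℤ :=
  ∑ k ∈ Finset.univ.filter (fun k : Fin ℓ => k.val < i), svec (w k)

lemma pos_zero {t ℓ : ℕ} (w : Fin ℓ → Bool × Fin t) : pos w 0 = 0 := by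
  unfold pos
  apply Finset.sum_eq_zero
  intro k hk
  simp at hk

lemma pos_succ {t ℓ : ℕ} (w : Fin ℓ → Bool × Fin t) (k : Fin ℓ) :
    pos w (k.val + 1) = pos w k.val + svec (w k) := by
  unfold pos
  have h1 : Finset.univ.filter (fun k' : Fin ℓ => k'.val < k.val + 1) =
      insert k (Finset.univ.filter (fun k' : Fin ℓ => k'.val < k.val)) := by
    ext k'
    simp only [Finset.mem_filter, Finset.mem_univ, true_and, Finset.mem_insert, Fin.ext_iff]
    omega
  rw [h1, Finset.sum_insert (by simp), add_comm]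

/-- `ℓ¹` norm -/
def nrm {t : ℕ} (p : Fin t → ℤ) : ℤ := ∑ j, |p j|

lemma nrm_add_le {t : ℕ} (p q : Fin t → ℤ) : nrm (p + q) ≤ nrm p + nrm q := by
  unfold nrm
  rw [← Finset.sum_add_distrib]
  apply Finset.sum_le_sum
  intro j _
  exact abs_add_le _ _

lemma nrm_neg {t : ℕ} (p : Fin t → ℤ) : nrm (-p) = nrm p := by
  unfold nrm
  apply Finset.sum_congr rfl
  intro j _
  rw [Pi.neg_apply, abs_neg]

lemma nrm_svec {t : ℕ} (σ : Bool × Fin t) : nrm (svec σ) = 1 := by
  have h1 : nrm (Pi.single σ.2 1 : Fin t → ℤ) = 1 := by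
    unfold nrm
    rw [Finset.sum_eq_single σ.2]
    · simp
    · intro j _ hj
      rw [Pi.single_eq_of_ne hj, abs_zero]
    · intro h; exact absurd (Finset.mem_univ _) h
  unfold svec
  split_ifs
  · exact h1
  · rw [nrm_neg]; exact h1

lemma nrm_sum_le {t : ℕ} {α : Type*} (S : Finset α) (f : α → Fin t → ℤ) :
    nrm (∑ k ∈ S, f k) ≤ ∑ k ∈ S, nrm (f k) := by
  classical
  induction S using Finset.induction_on with
  | empty => simp [nrm]
  | insert a S ha ih =>
    rw [Finset.sum_insert ha, Finset.sum_insert ha]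
    exact (nrm_add_le _ _).trans (by omega)

lemma nrm_pos {t ℓ : ℕ} (w : Fin ℓ → Bool × Fin t) (i : ℕ) : nrm (pos w i) ≤ ℓ := by
  unfold pos
  refine (nrm_sum_le _ _).trans ?_
  calc ∑ k ∈ Finset.univ.filter (fun k : Fin ℓ => k.val < i), nrm (svec (w k))
      = ∑ k ∈ Finset.univ.filter (fun k : Fin ℓ => k.val < i), 1 :=
        Finset.sum_congr rfl (fun k _ => nrm_svec _)
    _ = ((Finset.univ.filter (fun k : Fin ℓ => k.val < i)).card : ℤ) := by simp
    _ ≤ ℓ := by
        have := Finset.card_le_univ (Finset.univ.filter (fun k : Fin ℓ => k.val < i))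
        rw [Fintype.card_fin] at this
        exact_mod_cast this

/-- relation vectors -/
def rel {t ℓ : ℕ} (w : Fin ℓ → Bool × Fin t) (ρ : Fin 4 → Fin (ℓ + 1)) : Fin t → ℤ :=
  pos w (ρ 0) - pos w (ρ 1) - pos w (ρ 2) + pos w (ρ 3)

lemma nrm_rel {t ℓ : ℕ} (w : Fin ℓ → Bool × Fin t) (ρ : Fin 4 → Fin (ℓ + 1)) :
    nrm (rel w ρ) ≤ 4 * ℓ := by
  unfold rel
  have e : pos w (ρ 0) - pos w (ρ 1) - pos w (ρ 2) + pos w (ρ 3) =
      pos w (ρ 0) + -pos w (ρ 1) + -pos w (ρ 2) + pos w (ρ 3) := by abel
  rw [e]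
  have h0 := nrm_pos w (ρ 0)
  have h1 := nrm_pos w (ρ 1)
  have h2 := nrm_pos w (ρ 2)
  have h3 := nrm_pos w (ρ 3)
  have a1 := nrm_add_le (pos w (ρ 0)) (-pos w (ρ 1))
  have a2 := nrm_add_le (pos w (ρ 0) + -pos w (ρ 1)) (-pos w (ρ 2))
  have a3 := nrm_add_le (pos w (ρ 0) + -pos w (ρ 1) + -pos w (ρ 2)) (pos w (ρ 3))
  rw [nrm_neg] at a1 a2
  linarith

section
variable {G : Type*} [AddCommGroup G] [DecidableEq G]

/-- evaluation of formal positions -/
noncomputable def ev {t : ℕ} (d : Fin t → G) : (Fin t → ℤ) →ₗ[ℤ] G := Fintype.linearCombination ℤ d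

omit [DecidableEq G] in
lemma ev_svec {t : ℕ} (d : Fin t → G) (σ : Bool × Fin t) :
    ev d (svec σ) = if σ.1 then d σ.2 else -d σ.2 := by
  unfold ev svec
  split_ifs
  · rw [Fintype.linearCombination_apply_single, one_smul]
  · rw [map_neg, Fintype.linearCombination_apply_single, one_smul]

/-- the set visited by a walk -/
noncomputable def vset {t ℓ : ℕ} (w : Fin ℓ → Bool × Fin t) (x₀ : G) (d : Fin t → G) : Finset G :=
  Finset.univ.image (fun i : Fin (ℓ + 1) => x₀ + ev d (pos w i))

lemma visits_eq (x : G) (w : List (Bool × (ℕ × G))) :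
    visits x w = (Finset.range (w.length + 1)).image
      (fun i => x + ((w.take i).map sval).sum) := by
  induction w generalizing x with
  | nil => simp [visits]
  | cons σ w ih =>
    simp only [visits, List.length_cons]
    rw [ih, Finset.range_eq_Ico, Finset.range_eq_Ico]
    ext z
    simp only [Finset.mem_insert, Finset.mem_image, Finset.mem_Ico]
    constructor
    · rintro (rfl | ⟨i, hi, rfl⟩)
      · exact ⟨0, by omega, by simp⟩
      · refine ⟨i + 1, by omega, ?_⟩
        rw [List.take_succ_cons, List.map_cons, List.sum_cons, add_assoc]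
    · rintro ⟨i, hi, rfl⟩
      rcases i with _ | i
      · left; simp
      · right
        refine ⟨i, by omega, ?_⟩
        rw [List.take_succ_cons, List.map_cons, List.sum_cons, add_assoc]

/-- Encoding theorem. -/
theorem exists_code [Countable G] {A : Finset G} (hA : A.Nonempty) :
    ∃ t : ℕ, t * (t - 1) ≤ 4 * (A - A).card ∧
      ∃ (w : Fin (2 * (A.card - 1)) → Bool × Fin t) (x₀ : G) (d : Fin t → G),
        vset w x₀ d = A ∧ ∑ k, (w k).2.val ≤ 4 * (A - A).card ∧ ∀ i : Fin t, ∃ k, (w k).2 = i := by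
  obtain ⟨t, d, x₀, w, hvis, hlen, hsum, hlab, hused, ht⟩ := exists_walk hA
  refine ⟨t, ht, ?_⟩
  generalize 2 * (A.card - 1) = ℓ at hlen ⊢
  subst hlen
  set w' : Fin w.length → Bool × Fin t := fun k =>
    ((w.get k).1, ⟨(w.get k).2.1, (hlab _ (List.get_mem w k)).1⟩) with hw'
  refine ⟨w', x₀, fun i => d i, ?_, ?_, ?_⟩
  · have hstep : ∀ k : Fin w.length, ev (fun i : Fin t => d i) (svec (w' k)) = sval (w.get k) := by
      intro k
      rw [ev_svec]
      have h1 := (hlab _ (List.get_mem w k)).2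
      simp only [hw', sval]
      rw [h1]
    have hposi : ∀ i, i ≤ w.length →
        ((w.take i).map sval).sum = ev (fun i : Fin t => d i) (pos w' i) := by
      intro i
      induction i with
      | zero => intro _; rw [pos_zero, map_zero]; simp
      | succ i ih =>
        intro hi
        have h1 := ih (by omega)
        have h2 := pos_succ w' ⟨i, by omega⟩
        simp only at h2
        rw [h2, map_add, ← h1, hstep]
        rw [List.take_succ_eq_append_getElem (by omega), List.map_append, List.sum_append]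
        simp
    rw [← hvis, visits_eq]
    unfold vset
    ext z
    simp only [Finset.mem_image, Finset.mem_univ, true_and, Finset.mem_range]
    constructor
    · rintro ⟨i, rfl⟩
      exact ⟨i.val, i.isLt, by rw [hposi i.val (by omega)]⟩
    · rintro ⟨i, hi, rfl⟩
      exact ⟨⟨i, hi⟩, by rw [hposi i (by omega)]⟩
  · refine le_trans (le_of_eq ?_) hsum
    rw [← Fin.sum_univ_getElem (l := w.map (fun σ => σ.2.1))]
    simp only [hw', List.get_eq_getElem, List.getElem_map]
    rw [← Fin.sum_congr' _ (List.length_map (as := w) (fun σ => σ.2.1))]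
    rfl
  · intro i
    obtain ⟨σ, hσ, hσi⟩ := hused i.val i.isLt
    obtain ⟨k, hk⟩ := List.mem_iff_get.mp hσ
    refine ⟨k, ?_⟩
    rw [Fin.ext_iff]
    simp only [hw']
    rw [hk, hσi]


/-- cast to rational vectors -/
def cv {t : ℕ} (p : Fin t → ℤ) : Fin t → ℚ := fun j => (p j : ℚ)

lemma cv_add {t : ℕ} (p q : Fin t → ℤ) : cv (p + q) = cv p + cv q := by
  funext j; simp [cv]

lemma cv_sub {t : ℕ} (p q : Fin t → ℤ) : cv (p - q) = cv p - cv q := by
  funext j; simp [cv]

lemma cv_zero {t : ℕ} : cv (0 : Fin t → ℤ) = 0 := by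
  funext j; simp [cv]

lemma cv_neg {t : ℕ} (p : Fin t → ℤ) : cv (-p) = -cv p := by
  funext j; simp [cv]

/-- Relations. -/
theorem exists_relations {t ℓ : ℕ} (w : Fin ℓ → Bool × Fin t)
    (hused : ∀ i : Fin t, ∃ k, (w k).2 = i) (x₀ : G) (d : Fin t → G) :
    ∃ (q : ℕ) (R : Fin q → (Fin 4 → Fin (ℓ + 1))),
      LinearIndependent ℚ (fun k => cv (rel w (R k))) ∧
      (∀ k, ev d (rel w (R k)) = 0) ∧ q ≤ t ∧
      3 * (t - q) * (vset w x₀ d).card ≤ 100 * (vset w x₀ d - vset w x₀ d).card := by
  classical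
  set P : Set (Fin t → ℚ) := Set.range
    (fun ρ : {ρ : Fin 4 → Fin (ℓ + 1) // ev d (rel w ρ) = 0} => cv (rel w ρ.1)) with hP
  obtain ⟨b, hbP, hbspan, hbli⟩ := exists_linearIndependent ℚ P
  have hbfin : b.Finite := (Set.finite_range _).subset hbP
  have : Fintype b := hbfin.fintype
  set V := Submodule.span ℚ P with hV
  have hq : Module.finrank ℚ V = Fintype.card b := by
    rw [← hbspan, finrank_span_set_eq_card hbli, Set.toFinset_card]
  have hmemV : ∀ ρ : Fin 4 → Fin (ℓ + 1), ev d (rel w ρ) = 0 → cv (rel w ρ) ∈ V := by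
    intro ρ hρ
    exact Submodule.subset_span ⟨⟨ρ, hρ⟩, rfl⟩
  set ψ := V.mkQ with hψ
  set pt : Fin (ℓ + 1) → G := fun i => x₀ + ev d (pos w i) with hpt
  set ps : Fin (ℓ + 1) → ((Fin t → ℚ) ⧸ V) := fun i => ψ (cv (pos w i)) with hps
  have hrel : ∀ i j k l : Fin (ℓ + 1), pt i - pt j = pt k - pt l → ps i - ps j = ps k - ps l := by
    intro i j k l h
    have h1 : ev d (rel w ![i, j, k, l]) = 0 := by
      have e : rel w ![i, j, k, l] = pos w i - pos w j - pos w k + pos w l := rfl
      rw [e, map_add, map_sub, map_sub]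
      simp only [hpt] at h
      have h2 : ev d (pos w i) - ev d (pos w j) = ev d (pos w k) - ev d (pos w l) := by
        have e1 : (x₀ + ev d (pos w i)) - (x₀ + ev d (pos w j)) =
          ev d (pos w i) - ev d (pos w j) := by abel
        have e2 : (x₀ + ev d (pos w k)) - (x₀ + ev d (pos w l)) =
          ev d (pos w k) - ev d (pos w l) := by abel
        rw [← e1, ← e2, h]
      rw [h2]; abel
    have h3 := hmemV _ h1
    have e : rel w ![i, j, k, l] = pos w i - pos w j - pos w k + pos w l := rfl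
    rw [e, cv_add, cv_sub, cv_sub] at h3
    simp only [hps]
    rw [← sub_eq_zero, ← map_sub, ← map_sub, ← map_sub, hψ, Submodule.mkQ_apply,
      Submodule.Quotient.mk_eq_zero]
    have e2 : cv (pos w i) - cv (pos w j) - (cv (pos w k) - cv (pos w l)) =
      cv (pos w i) - cv (pos w j) - cv (pos w k) + cv (pos w l) := by abel
    rw [e2]; exact h3
  set Â : Finset (G × ((Fin t → ℚ) ⧸ V)) := Finset.univ.image (fun i => (pt i, ps i)) with hÂ
  have hcardA : Â.card = (vset w x₀ d).card := by
    have h1 : Â.image Prod.fst = vset w x₀ d := by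
      rw [hÂ, Finset.image_image]; rfl
    rw [← h1]
    symm
    apply Finset.card_image_of_injOn
    intro a ha a' ha' haa
    rw [Finset.mem_coe, hÂ, Finset.mem_image] at ha ha'
    obtain ⟨i, _, rfl⟩ := ha
    obtain ⟨j, _, rfl⟩ := ha'
    simp only at haa
    have := hrel i j 0 0 (by rw [haa, sub_self, sub_self])
    rw [sub_self, sub_eq_zero] at this
    rw [haa, this]
  have hcardD : (Â - Â).card ≤ (vset w x₀ d - vset w x₀ d).card := by
    apply Finset.card_le_card_of_injOn Prod.fst
    · intro z hz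
      rw [Finset.mem_coe, Finset.mem_sub] at hz
      obtain ⟨a, ha, a', ha', rfl⟩ := hz
      rw [hÂ, Finset.mem_image] at ha ha'
      obtain ⟨i, _, rfl⟩ := ha
      obtain ⟨j, _, rfl⟩ := ha'
      apply Finset.mem_coe.mpr
      exact Finset.sub_mem_sub (Finset.mem_image_of_mem _ (Finset.mem_univ i))
        (Finset.mem_image_of_mem _ (Finset.mem_univ j))
    · intro z hz z' hz' hzz
      rw [Finset.mem_coe, Finset.mem_sub] at hz hz'
      obtain ⟨a, ha, a', ha', rfl⟩ := hz
      obtain ⟨c, hc, c', hc', rfl⟩ := hz'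
      rw [hÂ, Finset.mem_image] at ha ha' hc hc'
      obtain ⟨i, _, rfl⟩ := ha
      obtain ⟨j, _, rfl⟩ := ha'
      obtain ⟨k, _, rfl⟩ := hc
      obtain ⟨l, _, rfl⟩ := hc'
      have h1 : pt i - pt j = pt k - pt l := hzz
      have h2 := hrel i j k l h1
      exact Prod.ext h1 h2
  -- the positions span
  have hspan : Submodule.span ℚ (Set.range ps) = ⊤ := by
    have h1 : Submodule.span ℚ (Set.range (fun i : Fin (ℓ + 1) => cv (pos w i))) = ⊤ := by
      rw [eq_top_iff, ← (Pi.basisFun ℚ (Fin t)).span_eq, Submodule.span_le]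
      rintro _ ⟨j, rfl⟩
      rw [Pi.basisFun_apply, SetLike.mem_coe]
      obtain ⟨k, hk⟩ := hused j
      have hstep := pos_succ w k
      have hm1 : cv (pos w (k.val + 1)) ∈
          Submodule.span ℚ (Set.range (fun i : Fin (ℓ + 1) => cv (pos w i))) :=
        Submodule.subset_span ⟨⟨k.val + 1, by omega⟩, rfl⟩
      have hm0 : cv (pos w k.val) ∈
          Submodule.span ℚ (Set.range (fun i : Fin (ℓ + 1) => cv (pos w i))) :=
        Submodule.subset_span ⟨⟨k.val, by omega⟩, rfl⟩
      have hm : cv (svec (w k)) ∈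
          Submodule.span ℚ (Set.range (fun i : Fin (ℓ + 1) => cv (pos w i))) := by
        have e : cv (svec (w k)) = cv (pos w (k.val + 1)) - cv (pos w k.val) := by
          rw [hstep, cv_add]; abel
        rw [e]
        exact Submodule.sub_mem _ hm1 hm0
      have e1 : cv (Pi.single j 1 : Fin t → ℤ) = Pi.single j 1 := by
        funext i
        unfold cv
        by_cases hi : i = j
        · subst hi; simp
        · rw [Pi.single_eq_of_ne hi, Pi.single_eq_of_ne hi]; simp
      unfold svec at hm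
      rw [hk] at hm
      split_ifs at hm with hs
      · rw [e1] at hm; exact hm
      · rw [cv_neg, e1] at hm
        have := Submodule.neg_mem _ hm
        rwa [neg_neg] at this
    have h2 : Set.range ps = ψ '' (Set.range (fun i : Fin (ℓ + 1) => cv (pos w i))) := by
      rw [← Set.range_comp]; rfl
    rw [h2, Submodule.span_image, h1, Submodule.map_top, hψ, Submodule.range_mkQ]
  obtain ⟨b', hb'P, hb'span, hb'li⟩ := exists_linearIndependent ℚ (Set.range ps)
  have hb'fin : b'.Finite := (Set.finite_range _).subset hb'P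
  have : Fintype b' := hb'fin.fintype
  have hr : Module.finrank ℚ ((Fin t → ℚ) ⧸ V) = Fintype.card b' := by
    rw [← finrank_top, ← hspan, ← hb'span, finrank_span_set_eq_card hb'li, Set.toFinset_card]
  have hdim := Submodule.finrank_quotient_add_finrank V
  rw [Module.finrank_fin_fun, hr, hq] at hdim
  set r := Fintype.card b' with hrdef
  set q := Fintype.card b with hqdef
  have hchoose : ∀ k : Fin q, ∃ ρ : Fin 4 → Fin (ℓ + 1), ev d (rel w ρ) = 0 ∧
      cv (rel w ρ) = ((Fintype.equivFin b).symm k : b).1 := by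
    intro k
    obtain ⟨ρ, hρ⟩ := hbP ((Fintype.equivFin b).symm k).2
    exact ⟨ρ.1, ρ.2, hρ⟩
  choose R hR1 hR2 using hchoose
  refine ⟨q, R, ?_, hR1, by omega, ?_⟩
  · have e : (fun k => cv (rel w (R k))) = (fun k : Fin q => ((Fintype.equivFin b).symm k : b).1) := by
      funext k; exact hR2 k
    rw [e]
    exact hbli.comp _ (Fintype.equivFin b).symm.injective
  · have hchoose' : ∀ k : Fin r, ∃ i : Fin (ℓ + 1), ps i = ((Fintype.equivFin b').symm k : b').1 := by
      intro k
      exact hb'P ((Fintype.equivFin b').symm k).2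
    choose I hI using hchoose'
    have hpt0 : pt 0 = x₀ := by
      simp only [hpt]
      rw [Fin.val_zero, pos_zero, map_zero, add_zero]
    have hps0 : ps 0 = 0 := by
      simp only [hps]
      rw [Fin.val_zero, pos_zero, cv_zero, map_zero]
    have hli : LinearIndependent ℤ (fun k => ((pt (I k) - x₀, ps (I k)) : G × ((Fin t → ℚ) ⧸ V))) := by
      apply LinearIndependent.of_comp (LinearMap.snd ℤ G ((Fin t → ℚ) ⧸ V))
      have e : (LinearMap.snd ℤ G ((Fin t → ℚ) ⧸ V)) ∘
          (fun k => ((pt (I k) - x₀, ps (I k)) : G × ((Fin t → ℚ) ⧸ V))) =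
          (fun k : Fin r => ((Fintype.equivFin b').symm k : b').1) := by
        funext k; exact hI k
      rw [e]
      have h1 : LinearIndependent ℚ (fun k : Fin r => ((Fintype.equivFin b').symm k : b').1) :=
        hb'li.comp _ (Fintype.equivFin b').symm.injective
      refine LinearIndependent.restrict_scalars ?_ h1
      intro m m' h
      simpa using h
    have hg := growth Â (x₀, 0) (by
        rw [hÂ, Finset.mem_image]
        exact ⟨0, Finset.mem_univ _, by rw [hpt0, hps0]⟩)
      (fun k => ((pt (I k) - x₀, ps (I k)) : G × ((Fin t → ℚ) ⧸ V)))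
      (by
        intro k
        rw [hÂ, Finset.mem_image]
        refine ⟨I k, Finset.mem_univ _, ?_⟩
        rw [Prod.mk_add_mk, zero_add, add_sub_cancel])
      hli
    have hrq : t - q = r := by omega
    rw [hrq, ← hcardA]
    exact hg.trans (Nat.mul_le_mul_left _ hcardD)

end

end K3h15.RC
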