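import Mathlib
import Pool.Agent.K3h15.RC.Rel

/-!
# Counting solutions of integer linear systems in products of cyclic groups
-/

namespace K3h15.RC

open Finset

/-- Independent rows have an injective set of columns. -/
lemma exists_cols {t q : ℕ} (B : Fin q → Fin t → ℤ)
    (hB : LinearIndependent ℚ (fun k => cv (B k))) :
    ∃ a : Fin q → Fin t, Function.Injective a ∧
      ∀ x : Fin q → ℤ, (∀ k, ∑ l, B k (a l) * x l = 0) → x = 0 := by
  classical
  set Bm : Matrix (Fin q) (Fin t) ℚ := fun k j => (B k j : ℚ) with hBm
  have hrow : LinearIndependent ℚ Bm.row := hB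
  have hrank := hrow.rank_matrix
  rw [Fintype.card_fin] at hrank
  obtain ⟨κ, a, ha, hspan, hli⟩ := exists_linearIndependent' ℚ Bm.col
  have hfin : Finite κ := Finite.of_injective a ha
  have : Fintype κ := Fintype.ofFinite κ
  have hcard : Fintype.card κ = q := by
    have h1 := linearIndependent_iff_card_eq_finrank_span.mp hli
    rw [h1, Set.finrank, hspan, ← Matrix.rank_eq_finrank_span_cols, hrank]
  set e : Fin q ≃ κ := (Fintype.equivFinOfCardEq hcard).symm with he
  refine ⟨a ∘ e, ha.comp e.injective, ?_⟩
  intro x hx
  have hli' : LinearIndependent ℚ (fun l : Fin q => Bm.col (a (e l))) :=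
    hli.comp e e.injective
  rw [Fintype.linearIndependent_iff] at hli'
  have h := hli' (fun l => (x l : ℚ)) (by
    funext k
    have h1 := hx k
    have h2 : ((∑ l, B k (a (e l)) * x l : ℤ) : ℚ) = 0 := by
      have : (∑ l, B k (a (e l)) * x l : ℤ) = 0 := h1
      rw [this]; simp
    rw [Finset.sum_apply, Pi.zero_apply, ← h2]
    push_cast
    apply Finset.sum_congr rfl
    intro l _
    rw [Pi.smul_apply, smul_eq_mul, mul_comm]
    rfl)
  funext l
  have := h l
  exact_mod_cast this

/-- Counting solutions. -/
theorem count_sol {ι : Type*} [Fintype ι] [DecidableEq ι] (m : ι → ℕ) [∀ i, NeZero (m i)]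
    {t q : ℕ} (B : Fin q → Fin t → ℤ) (hB : LinearIndependent ℚ (fun k => cv (B k)))
    (H : ℕ) (hH : 1 ≤ H) (hn : ∀ k, nrm (B k) ≤ H) :
    ((Finset.univ : Finset (Fin t → ((i : ι) → ZMod (m i)))).filter
      (fun d => ∀ k, ev d (B k) = 0)).card * (∏ i, m i) ^ q ≤
      (∏ i, m i) ^ t * H ^ (q * Fintype.card ι) := by
  classical
  obtain ⟨a, ha, hinj⟩ := exists_cols B hB
  set β : ι → ℕ := fun i => (m i + H - 1) / H with hβ
  have hmpos : ∀ i, 1 ≤ m i := fun i => Nat.one_le_iff_ne_zero.mpr (NeZero.ne (m i))
  have hβ1 : ∀ i, m i ≤ β i * H := by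
    intro i
    have h1 := Nat.div_add_mod (m i + H - 1) H
    have h2 := Nat.mod_lt (m i + H - 1) (show H > 0 by omega)
    have h3 : H * ((m i + H - 1) / H) = β i * H := by rw [mul_comm]
    omega
  have hβ2 : ∀ i, (β i - 1) * H < m i := by
    intro i
    have h1 := Nat.div_add_mod (m i + H - 1) H
    have h3 : H * ((m i + H - 1) / H) = β i * H := by rw [mul_comm]
    have h4 : (β i - 1) * H = β i * H - H := by rw [Nat.sub_mul, one_mul]
    have := hmpos i
    omega
  set Sol := (Finset.univ : Finset (Fin t → ((i : ι) → ZMod (m i)))).filter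
      (fun d => ∀ k, ev d (B k) = 0) with hSol
  -- the box
  set bx : (Fin q → ((i : ι) → Fin (β i))) → (Fin q → ((i : ι) → ZMod (m i))) :=
    fun x l i => ((x l i).val : ZMod (m i)) with hbx
  set emb : (Fin q → ((i : ι) → ZMod (m i))) → (Fin t → ((i : ι) → ZMod (m i))) :=
    fun y j => ∑ l, if a l = j then y l else 0 with hemb
  have hev : ∀ (d : Fin t → ((i : ι) → ZMod (m i))) (y : Fin q → ((i : ι) → ZMod (m i))) (k : Fin q),
      ev (d + emb y) (B k) = ev d (B k) + ∑ l, B k (a l) • y l := by
    intro d y k
    unfold ev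
    rw [Fintype.linearCombination_apply, Fintype.linearCombination_apply]
    simp only [Pi.add_apply, smul_add, Finset.sum_add_distrib]
    congr 1
    simp only [hemb, Finset.smul_sum]
    rw [Finset.sum_comm]
    apply Finset.sum_congr rfl
    intro l _
    rw [Finset.sum_eq_single (a l)]
    · rw [if_pos rfl]
    · intro j _ hj
      rw [if_neg (Ne.symm hj), smul_zero]
    · intro h; exact absurd (Finset.mem_univ _) h
  have hinj2 : Set.InjOn (fun p : (Fin t → ((i : ι) → ZMod (m i))) ×
      (Fin q → ((i : ι) → Fin (β i))) => p.1 + emb (bx p.2))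
      (↑(Sol ×ˢ (Finset.univ : Finset (Fin q → ((i : ι) → Fin (β i)))) : Finset _) : Set _) := by
    rintro ⟨d, x⟩ hp ⟨d', x'⟩ hp' h
    simp only at h
    have hd : ∀ k, ev d (B k) = 0 := by
      have := (Finset.mem_product.mp (Finset.mem_coe.mp hp)).1
      rw [hSol, Finset.mem_filter] at this
      exact this.2
    have hd' : ∀ k, ev d' (B k) = 0 := by
      have := (Finset.mem_product.mp (Finset.mem_coe.mp hp')).1
      rw [hSol, Finset.mem_filter] at this
      exact this.2
    have hxx : x = x' := by
      funext l i
      have hz : (fun l => ((x l i).val : ℤ) - ((x' l i).val : ℤ)) = 0 := by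
        apply hinj
        intro k
        have h1 : ∑ l, B k (a l) • bx x l = ∑ l, B k (a l) • bx x' l := by
          have e1 := hev d (bx x) k
          have e2 := hev d' (bx x') k
          rw [hd k, zero_add] at e1
          rw [hd' k, zero_add] at e2
          rw [← e1, ← e2, h]
        have h2 := congrFun h1 i
        rw [Finset.sum_apply, Finset.sum_apply] at h2
        have h3 : ((∑ l, B k (a l) * (((x l i).val : ℤ) - ((x' l i).val : ℤ)) : ℤ) : ZMod (m i)) =
            0 := by
          push_cast
          rw [← sub_eq_zero] at h2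
          rw [← Finset.sum_sub_distrib] at h2
          rw [← h2]
          apply Finset.sum_congr rfl
          intro l _
          simp only [hbx, Pi.smul_apply, zsmul_eq_mul]
          ring
        rw [ZMod.intCast_zmod_eq_zero_iff_dvd] at h3
        apply Int.eq_zero_of_abs_lt_dvd h3
        have hsum : ∑ l, |B k (a l)| ≤ nrm (B k) := by
          unfold nrm
          rw [← Finset.sum_image (f := fun j => |B k j|) (g := a) (s := Finset.univ)
            (by intro l _ l' _ hl; exact ha hl)]
          apply Finset.sum_le_sum_of_subset_of_nonneg (Finset.subset_univ _)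
          intro j _ _
          exact abs_nonneg _
        have hβpos : 1 ≤ β i := by
          have := (x ⟨l, l.isLt⟩ i).isLt
          omega
        calc |∑ l, B k (a l) * (((x l i).val : ℤ) - ((x' l i).val : ℤ))|
            ≤ ∑ l, |B k (a l) * (((x l i).val : ℤ) - ((x' l i).val : ℤ))| :=
              Finset.abs_sum_le_sum_abs _ _
          _ ≤ ∑ l, |B k (a l)| * ((β i : ℤ) - 1) := by
              apply Finset.sum_le_sum
              intro l _
              rw [abs_mul]
              apply mul_le_mul_of_nonneg_left _ (abs_nonneg _)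
              rw [abs_le]
              have h1 := (x l i).isLt
              have h2 := (x' l i).isLt
              constructor <;> omega
          _ = (∑ l, |B k (a l)|) * ((β i : ℤ) - 1) := by rw [Finset.sum_mul]
          _ ≤ H * ((β i : ℤ) - 1) := by
              apply mul_le_mul_of_nonneg_right (hsum.trans (hn k))
              omega
          _ < m i := by
              have h1 := hβ2 i
              have h2 : (((β i - 1) * H : ℕ) : ℤ) < (m i : ℤ) := by exact_mod_cast h1
              rw [Nat.cast_mul, Nat.cast_sub hβpos] at h2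
              push_cast at h2
              linarith
      have := congrFun hz l
      simp only [Pi.zero_apply] at this
      exact Fin.ext (by omega)
    subst hxx
    have hdd : d = d' := add_right_cancel h
    rw [hdd]
  have hcard := Finset.card_le_card_of_injOn _ (fun p _ => Finset.mem_coe.mpr (Finset.mem_univ _)) hinj2
  rw [Finset.card_product, Finset.card_univ, Finset.card_univ, Fintype.card_fun, Fintype.card_fun,
    Fintype.card_pi, Fintype.card_pi, Fintype.card_fin, Fintype.card_fin] at hcard
  simp only [Fintype.card_fin, ZMod.card] at hcard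
  have hprod : ∏ i, m i ≤ (∏ i, β i) * H ^ Fintype.card ι := by
    calc ∏ i, m i ≤ ∏ i, (β i * H) := Finset.prod_le_prod' (fun i _ => hβ1 i)
      _ = _ := by rw [Finset.prod_mul_distrib, Finset.prod_const, Finset.card_univ]
  calc Sol.card * (∏ i, m i) ^ q ≤ Sol.card * ((∏ i, β i) * H ^ Fintype.card ι) ^ q := by gcongr
    _ = (Sol.card * (∏ i, β i) ^ q) * H ^ (q * Fintype.card ι) := by
        rw [mul_pow, ← pow_mul, mul_comm (Fintype.card ι) q]; ring
    _ ≤ (∏ i, m i) ^ t * H ^ (q * Fintype.card ι) := Nat.mul_le_mul_right _ hcard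

end K3h15.RC
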