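import Mathlib
import Pool.Agent.K3h15.RC.Count

/-!
# Counting sets with prescribed size and prescribed size of the difference set
-/

namespace K3h15.RC

open Finset Pointwise

/-- words with small label sum -/
def words (ℓ t S : ℕ) : Finset (Fin ℓ → Bool × Fin t) :=
  Finset.univ.filter (fun w => ∑ k, (w k).2.val ≤ S)

lemma card_words (ℓ t S : ℕ) : ((words ℓ t S).card : ℝ) ≤ 128 ^ ℓ * (64 / 63 : ℝ) ^ S := by
  have h1 : ∑ w : Fin ℓ → Bool × Fin t, (63 / 64 : ℝ) ^ (∑ k, (w k).2.val) =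
      (∑ σ : Bool × Fin t, (63 / 64 : ℝ) ^ σ.2.val) ^ ℓ := by
    have h := Finset.prod_univ_sum (R := ℝ) (fun _ : Fin ℓ => (Finset.univ : Finset (Bool × Fin t)))
      (fun _ σ => (63 / 64 : ℝ) ^ σ.2.val)
    rw [Finset.prod_const, Finset.card_univ, Fintype.card_fin] at h
    rw [h, Fintype.piFinset_univ]
    apply Finset.sum_congr rfl
    intro w _
    rw [Finset.prod_pow_eq_pow_sum]
  have h2 : (∑ σ : Bool × Fin t, (63 / 64 : ℝ) ^ σ.2.val) ≤ 128 := by
    rw [Fintype.sum_prod_type]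
    simp only [Finset.sum_const, Finset.card_univ, Fintype.card_bool, nsmul_eq_mul]
    have h3 : ∑ j : Fin t, (63 / 64 : ℝ) ^ j.val ≤ 64 := by
      rw [Fin.sum_univ_eq_sum_range (fun j => (63 / 64 : ℝ) ^ j) t, geom_sum_eq (by norm_num)]
      have h4 : (0 : ℝ) ≤ (63 / 64 : ℝ) ^ t := by positivity
      rw [div_le_iff_of_neg (by norm_num)]
      linarith
    push_cast
    linarith
  have h5 : (0 : ℝ) ≤ ∑ σ : Bool × Fin t, (63 / 64 : ℝ) ^ σ.2.val :=
    Finset.sum_nonneg (fun _ _ => by positivity)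
  have h6 : ((words ℓ t S).card : ℝ) * (63 / 64 : ℝ) ^ S ≤ 128 ^ ℓ := by
    calc ((words ℓ t S).card : ℝ) * (63 / 64 : ℝ) ^ S = ∑ w ∈ words ℓ t S, (63 / 64 : ℝ) ^ S := by
          rw [Finset.sum_const, nsmul_eq_mul]
      _ ≤ ∑ w ∈ words ℓ t S, (63 / 64 : ℝ) ^ (∑ k, (w k).2.val) := by
          apply Finset.sum_le_sum
          intro w hw
          exact pow_le_pow_of_le_one (by norm_num) (by norm_num) (Finset.mem_filter.mp hw).2
      _ ≤ ∑ w : Fin ℓ → Bool × Fin t, (63 / 64 : ℝ) ^ (∑ k, (w k).2.val) := by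
          apply Finset.sum_le_sum_of_subset_of_nonneg (Finset.subset_univ _)
          intro _ _ _; positivity
      _ = (∑ σ : Bool × Fin t, (63 / 64 : ℝ) ^ σ.2.val) ^ ℓ := h1
      _ ≤ 128 ^ ℓ := pow_le_pow_left₀ h5 h2 ℓ
  have h7 : (64 / 63 : ℝ) ^ S * (63 / 64 : ℝ) ^ S = 1 := by
    rw [← mul_pow]; norm_num
  calc ((words ℓ t S).card : ℝ) = ((words ℓ t S).card : ℝ) * (63 / 64 : ℝ) ^ S * (64 / 63 : ℝ) ^ S := by
        rw [mul_assoc, mul_comm ((63 / 64 : ℝ) ^ S), h7, mul_one]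
    _ ≤ _ := mul_le_mul_of_nonneg_right h6 (by positivity)

variable {ι : Type*} [Fintype ι] [DecidableEq ι]

/-- the sets with `|A| = s`, `|A - A| = M` -/
noncomputable def fam (m : ι → ℕ) [∀ i, NeZero (m i)] (s M : ℕ) :
    Finset (Finset ((i : ι) → ZMod (m i))) :=
  Finset.univ.filter (fun A => A.card = s ∧ (A - A).card = M)

theorem card_fam (m : ι → ℕ) [∀ i, NeZero (m i)] (s M : ℕ) (hs : 1 ≤ s) (T : ℕ)
    (hT : ∀ t : ℕ, t * (t - 1) ≤ 4 * M → t ≤ T) :
    ((fam m s M).card : ℝ) ≤ (T + 1) ^ 2 * 128 ^ (2 * s) * (64 / 63 : ℝ) ^ (4 * M) *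
      (8 * s) ^ ((Fintype.card ι + 4) * T) * (∏ i, (m i : ℝ)) ^ (1 + 100 * M / (3 * s)) := by
  classical
  set N := ∏ i, m i with hN
  have hNpos : 1 ≤ N := by
    rw [hN]
    exact Nat.one_le_iff_ne_zero.mpr (Finset.prod_ne_zero_iff.mpr (fun i _ => NeZero.ne (m i)))
  set ℓ := 2 * (s - 1) with hℓ
  set H := 8 * s with hH
  set r := 100 * M / (3 * s) with hr
  set b := ⌊(128 : ℝ) ^ ℓ * (64 / 63 : ℝ) ^ (4 * M)⌋₊ with hb
  have hwb : ∀ t, (words ℓ t (4 * M)).card ≤ b := by
    intro t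
    exact Nat.le_floor (card_words ℓ t (4 * M))
  set Sol : ∀ (t q : ℕ) (w : Fin ℓ → Bool × Fin t) (R : Fin q → (Fin 4 → Fin (ℓ + 1))),
      Finset (Fin t → ((i : ι) → ZMod (m i))) := fun t q w R =>
    Finset.univ.filter (fun d => ∀ k, ev d (rel w (R k)) = 0) with hSol
  set Ind : ∀ (t q : ℕ) (w : Fin ℓ → Bool × Fin t), Finset (Fin q → (Fin 4 → Fin (ℓ + 1))) :=
    fun t q w => Finset.univ.filter (fun R => LinearIndependent ℚ (fun k => cv (rel w (R k))))
    with hInd
  set U : Finset (Finset ((i : ι) → ZMod (m i))) :=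
    (Finset.range (T + 1)).biUnion (fun t =>
      ((Finset.range (t + 1)).filter (fun q => 3 * (t - q) * s ≤ 100 * M)).biUnion (fun q =>
        (words ℓ t (4 * M)).biUnion (fun w =>
          (Ind t q w).biUnion (fun R =>
            (Finset.univ : Finset ((i : ι) → ZMod (m i))).biUnion (fun x₀ =>
              (Sol t q w R).image (fun d => vset w x₀ d)))))) with hU
  have hsub : fam m s M ⊆ U := by
    intro A hA
    rw [fam, Finset.mem_filter] at hA
    obtain ⟨_, hAs, hAM⟩ := hA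
    have hne : A.Nonempty := Finset.card_pos.mp (by omega)
    obtain ⟨t, ht, w, x₀, d, hv, hsum, hused⟩ := exists_code hne
    rw [hAM] at ht hsum
    subst hAs
    obtain ⟨q, R, hli, hev, hqt, hcard⟩ := exists_relations w hused x₀ d
    rw [hv, hAM] at hcard
    simp only [hU, Finset.mem_biUnion]
    refine ⟨t, ?_, q, ?_, w, ?_, R, ?_, x₀, Finset.mem_univ _, ?_⟩
    · have := hT t ht
      exact Finset.mem_range.mpr (by omega)
    · rw [Finset.mem_filter, Finset.mem_range]
      exact ⟨by omega, hcard⟩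
    · rw [words, Finset.mem_filter]
      exact ⟨Finset.mem_univ _, hsum⟩
    · rw [hInd, Finset.mem_filter]
      exact ⟨Finset.mem_univ _, hli⟩
    · rw [Finset.mem_image]
      refine ⟨d, ?_, hv⟩
      rw [hSol, Finset.mem_filter]
      exact ⟨Finset.mem_univ _, hev⟩
  have hH1 : 1 ≤ H := by omega
  have hℓH : ℓ + 1 ≤ H := by omega
  have hSolc : ∀ (t q : ℕ) (w : Fin ℓ → Bool × Fin t) (R : Fin q → (Fin 4 → Fin (ℓ + 1))),
      t ≤ T → q ≤ t → 3 * (t - q) * s ≤ 100 * M → R ∈ Ind t q w →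
      (Sol t q w R).card ≤ N ^ r * H ^ (T * Fintype.card ι) := by
    intro t q w R htT hqt hM hR
    rw [hInd, Finset.mem_filter] at hR
    have h1 := count_sol m (fun k => rel w (R k)) hR.2 H hH1 (by
      intro k
      refine (nrm_rel w (R k)).trans ?_
      have : 4 * ℓ ≤ H := by omega
      exact_mod_cast this)
    have h2 : (Sol t q w R).card * N ^ q ≤ (N ^ (t - q) * H ^ (q * Fintype.card ι)) * N ^ q := by
      calc (Sol t q w R).card * N ^ q ≤ N ^ t * H ^ (q * Fintype.card ι) := h1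
        _ = _ := by
          rw [show t = (t - q) + q by omega, pow_add]
          simp only [Nat.add_sub_cancel]
          ring
    have h3 := Nat.le_of_mul_le_mul_right h2 (by positivity)
    refine h3.trans ?_
    apply Nat.mul_le_mul
    · apply Nat.pow_le_pow_right hNpos
      rw [hr, Nat.le_div_iff_mul_le (by omega)]
      calc (t - q) * (3 * s) = 3 * (t - q) * s := by ring
        _ ≤ _ := hM
    · apply Nat.pow_le_pow_right hH1
      exact Nat.mul_le_mul_right _ (by omega)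
  have hIndc : ∀ (t q : ℕ) (w : Fin ℓ → Bool × Fin t), t ≤ T → q ≤ t →
      (Ind t q w).card ≤ H ^ (4 * T) := by
    intro t q w ht hq
    calc (Ind t q w).card ≤ Fintype.card (Fin q → (Fin 4 → Fin (ℓ + 1))) := Finset.card_le_univ _
      _ = ((ℓ + 1) ^ 4) ^ q := by
          rw [Fintype.card_fun, Fintype.card_fun, Fintype.card_fin, Fintype.card_fin,
            Fintype.card_fin]
      _ = (ℓ + 1) ^ (4 * q) := by rw [← pow_mul]
      _ ≤ H ^ (4 * q) := Nat.pow_le_pow_left hℓH _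
      _ ≤ H ^ (4 * T) := Nat.pow_le_pow_right hH1 (by omega)
  have hUcard : U.card ≤ (T + 1) * ((T + 1) * (b * (H ^ (4 * T) * (N *
      (N ^ r * H ^ (T * Fintype.card ι)))))) := by
    refine (Finset.card_biUnion_le_card_mul _ _ _ ?_).trans
      (Nat.mul_le_mul_right _ (by rw [Finset.card_range]))
    intro t ht
    rw [Finset.mem_range] at ht
    refine (Finset.card_biUnion_le_card_mul _ _ _ ?_).trans
      (Nat.mul_le_mul_right _ ((Finset.card_filter_le _ _).trans (by
        rw [Finset.card_range]; omega)))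
    intro q hq
    rw [Finset.mem_filter, Finset.mem_range] at hq
    refine (Finset.card_biUnion_le_card_mul _ _ _ ?_).trans (Nat.mul_le_mul_right _ (hwb t))
    intro w _
    refine (Finset.card_biUnion_le_card_mul _ _ _ ?_).trans
      (Nat.mul_le_mul_right _ (hIndc t q w (by omega) (by omega)))
    intro R hR
    refine (Finset.card_biUnion_le_card_mul _ _ _ ?_).trans (Nat.mul_le_mul_right _ ?_)
    · intro x₀ _
      exact Finset.card_image_le.trans (hSolc t q w R (by omega) (by omega) hq.2 hR)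
    · rw [Finset.card_univ, Fintype.card_pi]
      simp only [ZMod.card]
      exact le_refl _
  have hfin : ((fam m s M).card : ℝ) ≤ (T + 1) * ((T + 1) * (b * (H ^ (4 * T) * (N *
      (N ^ r * H ^ (T * Fintype.card ι)))))) := by
    exact_mod_cast (Finset.card_le_card hsub).trans hUcard
  have hbR : (b : ℝ) ≤ 128 ^ (2 * s) * (64 / 63 : ℝ) ^ (4 * M) := by
    refine (Nat.floor_le (by positivity)).trans ?_
    apply mul_le_mul_of_nonneg_right _ (by positivity)
    exact pow_le_pow_right₀ (by norm_num) (by omega)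
  have hHR : (H : ℝ) = 8 * s := by rw [hH]; push_cast; ring
  have hNR : (N : ℝ) = ∏ i, (m i : ℝ) := by rw [hN]; push_cast; rfl
  rw [hHR, hNR] at hfin
  refine hfin.trans ?_
  calc ((T : ℝ) + 1) * ((T + 1) * (b * ((8 * s) ^ (4 * T) * ((∏ i, (m i : ℝ)) *
      ((∏ i, (m i : ℝ)) ^ r * (8 * s) ^ (T * Fintype.card ι))))))
      ≤ ((T : ℝ) + 1) * ((T + 1) * ((128 ^ (2 * s) * (64 / 63 : ℝ) ^ (4 * M)) *
        ((8 * s) ^ (4 * T) * ((∏ i, (m i : ℝ)) *
      ((∏ i, (m i : ℝ)) ^ r * (8 * s) ^ (T * Fintype.card ι)))))) := by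
        gcongr
    _ = _ := by
        rw [pow_add _ 1 r, pow_one, show (Fintype.card ι + 4) * T = T * Fintype.card ι + 4 * T by ring,
          pow_add _ (T * Fintype.card ι) (4 * T)]
        ring

end K3h15.RC
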