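import Mathlib

/-!
# A small subset with a large difference set
-/

namespace K3h15.RC

open Finset Pointwise

variable {G : Type*} [AddCommGroup G] [DecidableEq G]

lemma greedy_step {A B C : Finset G} (hlt : 2 * (C - B).card < A.card) :
    ∃ c ∈ A, B.card ≤ 2 * (({c} - B) \ (C - B)).card := by
  by_contra hcon
  push Not at hcon
  have hcardc : ∀ c : G, (({c} : Finset G) - B).card = B.card := by
    intro c
    rw [Finset.singleton_sub]
    exact Finset.card_image_of_injective _ sub_right_injective
  have h1 : ∀ c ∈ A, B.card + 1 ≤ 2 * (({c} - B) ∩ (C - B)).card := by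
    intro c hc
    have h2 := hcon c hc
    have h3 := Finset.card_sdiff_add_card_inter ({c} - B) (C - B)
    rw [hcardc] at h3
    omega
  have h4 : ∑ c ∈ A, (({c} - B) ∩ (C - B)).card ≤ (C - B).card * B.card := by
    have e : ∀ c ∈ A, (({c} - B) ∩ (C - B)).card =
        ∑ z ∈ C - B, if c - z ∈ B then 1 else 0 := by
      intro c _
      rw [← Finset.card_filter]
      congr 1
      ext z
      rw [Finset.mem_inter, Finset.mem_filter, Finset.singleton_sub, Finset.mem_image]
      constructor
      · rintro ⟨⟨b, hb, rfl⟩, hz⟩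
        exact ⟨hz, by rw [sub_sub_cancel]; exact hb⟩
      · rintro ⟨hz, hb⟩
        exact ⟨⟨c - z, hb, by rw [sub_sub_cancel]⟩, hz⟩
    rw [Finset.sum_congr rfl e, Finset.sum_comm]
    calc ∑ z ∈ C - B, ∑ c ∈ A, (if c - z ∈ B then 1 else 0) ≤ ∑ z ∈ C - B, B.card := by
          apply Finset.sum_le_sum
          intro z _
          rw [← Finset.card_filter]
          apply Finset.card_le_card_of_injOn (fun c => c - z)
          · intro c hc
            rw [Finset.mem_coe, Finset.mem_filter] at hc
            exact Finset.mem_coe.mpr hc.2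
          · exact (sub_left_injective).injOn
      _ = _ := by rw [Finset.sum_const, smul_eq_mul]
  have h5 : A.card * (B.card + 1) ≤ 2 * ((C - B).card * B.card) := by
    calc A.card * (B.card + 1) = ∑ c ∈ A, (B.card + 1) := by rw [Finset.sum_const, smul_eq_mul]
      _ ≤ ∑ c ∈ A, 2 * (({c} - B) ∩ (C - B)).card := Finset.sum_le_sum h1
      _ = 2 * ∑ c ∈ A, (({c} - B) ∩ (C - B)).card := by rw [Finset.mul_sum]
      _ ≤ _ := Nat.mul_le_mul_left _ h4
  have h6 : 2 * ((C - B).card * B.card) ≤ A.card * B.card := by
    rw [← mul_assoc]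
    exact Nat.mul_le_mul_right _ hlt.le
  have h7 : 0 < A.card := by omega
  nlinarith

lemma greedy_iter {A B : Finset G} (i : ℕ) :
    ∃ C ⊆ A, C.card ≤ i ∧ min A.card (i * B.card) ≤ 2 * (C - B).card := by
  induction i with
  | zero => exact ⟨∅, Finset.empty_subset _, by simp, by simp⟩
  | succ i ih =>
    obtain ⟨C, hCA, hCi, hC⟩ := ih
    by_cases hlt : 2 * (C - B).card < A.card
    · obtain ⟨c, hc, hcard⟩ := greedy_step hlt
      refine ⟨insert c C, Finset.insert_subset hc hCA, (Finset.card_insert_le _ _).trans (by omega), ?_⟩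
      have hsub : (C - B) ∪ (({c} - B) \ (C - B)) ⊆ insert c C - B := by
        intro z hz
        rw [Finset.mem_union, Finset.mem_sdiff] at hz
        rcases hz with hz | ⟨hz, _⟩
        · exact Finset.sub_subset_sub_right (Finset.subset_insert _ _) hz
        · exact Finset.sub_subset_sub_right
            (Finset.singleton_subset_iff.mpr (Finset.mem_insert_self _ _)) hz
      have h1 := Finset.card_le_card hsub
      rw [Finset.card_union_of_disjoint Finset.disjoint_sdiff] at h1
      have h2 : (i + 1) * B.card = i * B.card + B.card := by ring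
      rw [h2]
      omega
    · exact ⟨C, hCA, by omega, (min_le_left _ _).trans (by omega)⟩

/-- Small subsets with many differences. -/
theorem exists_small_subset (A : Finset G) (q p : ℕ) (hq : 2 ≤ q) (hp : 2 ≤ p)
    (hA : q * p ≤ A.card) :
    ∃ A' ⊆ A, A'.card = q + p ∧ q * p ≤ 2 * (A' - A').card := by
  obtain ⟨A₁, hA₁, hc₁⟩ := Finset.exists_subset_card_eq hA
  have hqp : q ≤ q * p := Nat.le_mul_of_pos_right q (by omega)
  obtain ⟨B, hB, hBc⟩ := Finset.exists_subset_card_eq (s := A₁) (n := q) (by omega)
  obtain ⟨C, hC, hCc, hmin⟩ := greedy_iter (A := A₁) (B := B) p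
  rw [hc₁, hBc, mul_comm p q, min_self] at hmin
  have hBC : (B ∪ C).card ≤ q + p := (Finset.card_union_le _ _).trans (by omega)
  have hsum : q + p ≤ A₁.card := by
    rw [hc₁]
    nlinarith
  obtain ⟨A', h1, h2, h3⟩ := Finset.exists_subsuperset_card_eq (Finset.union_subset hB hC) hBC hsum
  refine ⟨A', h2.trans hA₁, h3, hmin.trans (Nat.mul_le_mul_left _ (Finset.card_le_card ?_))⟩
  exact Finset.sub_subset_sub (Finset.subset_union_right.trans h1) (Finset.subset_union_left.trans h1)

end K3h15.RC
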