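import Mathlib
import Pool.Agent.K3h15.RC.Family
import Pool.Agent.K3h15.RC.Subset

/-!
# The union bound
-/

namespace K3h15.RC

open Finset Pointwise

section rep

variable {G : Type*} [AddCommGroup G] [DecidableEq G]

/-- canonical representative of `{g, -g}` -/
def rep (e : G → ℕ) (g : G) : G := if e g ≤ e (-g) then g else -g

omit [DecidableEq G] in
lemma rep_neg {e : G → ℕ} (he : Function.Injective e) (g : G) : rep e (-g) = rep e g := by
  unfold rep
  rw [neg_neg]
  rcases lt_trichotomy (e g) (e (-g)) with h | h | h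
  · rw [if_neg (by omega), if_pos (by omega)]
  · have := he h
    rw [if_pos (by omega), if_pos (by omega)]
    exact this.symm
  · rw [if_pos (by omega), if_neg (by omega)]

omit [DecidableEq G] in
lemma rep_eq (e : G → ℕ) (g : G) : rep e g = g ∨ rep e g = -g := by
  unfold rep
  split_ifs
  · left; rfl
  · right; rfl

/-- representatives of the nonzero differences -/
def Dset (e : G → ℕ) (A : Finset G) : Finset G := ((A - A).erase 0).image (rep e)

lemma card_Dset (e : G → ℕ) (A : Finset G) : (A - A).card ≤ 2 * (Dset e A).card + 1 := by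
  have h1 : (A - A).erase 0 ⊆ Dset e A ∪ (-(Dset e A)) := by
    intro g hg
    rw [Finset.mem_union]
    have hmem : rep e g ∈ Dset e A := Finset.mem_image_of_mem _ hg
    rcases rep_eq e g with h | h
    · left; rw [← h]; exact hmem
    · right
      rw [Finset.mem_neg']
      rw [← h]; exact hmem
  have h2 := Finset.card_le_card h1
  have h3 := Finset.card_union_le (Dset e A) (-(Dset e A))
  rw [Finset.card_neg] at h3
  have h4 := Finset.pred_card_le_card_erase (s := A - A) (a := 0)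
  omega

end rep

lemma card_fix {G : Type*} [Fintype G] [DecidableEq G] (D : Finset G) (b : Bool) :
    ((Finset.univ.filter (fun c : G → Bool => ∀ h ∈ D, c h = b)).card : ℝ) =
      2 ^ Fintype.card G / 2 ^ D.card := by
  have h1 : Finset.univ.filter (fun c : G → Bool => ∀ h ∈ D, c h = b) =
      Fintype.piFinset (fun h => if h ∈ D then {b} else Finset.univ) := by
    ext c
    rw [Finset.mem_filter, Fintype.mem_piFinset]
    constructor
    · rintro ⟨_, hc⟩ h
      split_ifs with hh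
      · rw [Finset.mem_singleton]; exact hc h hh
      · exact Finset.mem_univ _
    · intro hc
      refine ⟨Finset.mem_univ _, fun h hh => ?_⟩
      have := hc h
      rw [if_pos hh, Finset.mem_singleton] at this
      exact this
  rw [h1, Fintype.card_piFinset, eq_div_iff (by positivity)]
  have h2 : ∀ h : G, (if h ∈ D then ({b} : Finset Bool) else Finset.univ).card =
      if h ∈ D then 1 else 2 := by
    intro h
    split_ifs <;> simp
  rw [Finset.prod_congr rfl (fun h _ => h2 h)]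
  rw [Finset.prod_ite, Finset.prod_const_one, one_mul, Finset.prod_const]
  have h3 : (Finset.univ.filter (fun h => h ∉ D)).card + D.card = Fintype.card G := by
    have := Finset.card_filter_add_card_filter_not (s := (Finset.univ : Finset G)) (p := fun h => h ∈ D)
    rw [Finset.filter_mem_eq_inter, Finset.univ_inter, Finset.card_univ] at this
    omega
  push_cast
  rw [← pow_add, h3]

variable {ι : Type*} [Fintype ι] [DecidableEq ι]

lemma fam_le (m : ι → ℕ) [∀ i, NeZero (m i)] (s M lam β : ℕ) (hs : 1 ≤ s)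
    (hN : ∏ i, m i ≤ 2 ^ lam) (hlam : 1100 * lam ≤ s) (hM : 240 * s ≤ M) (hβ : 8 * s ≤ 2 ^ β)
    (hcond : (96 * (β * (Fintype.card ι + 5))) ^ 2 ≤ 240 * s) :
    ((fam m s M).card : ℝ) ≤ 2 ^ (6 * (M / 16) + 2) := by
  set u := M / 16 with hu
  set n := Fintype.card ι with hn
  have hu15 : 15 * s ≤ u := by omega
  have hMu : M ≤ 32 * u := by omega
  set T := Nat.sqrt (4 * M) + 1 with hT
  have hTt : ∀ t : ℕ, t * (t - 1) ≤ 4 * M → t ≤ T := by
    intro t ht
    by_contra hcon
    push Not at hcon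
    have h1 := Nat.lt_succ_sqrt (4 * M)
    have h2 : (Nat.sqrt (4 * M) + 1) * (Nat.sqrt (4 * M) + 1) ≤ t * (t - 1) :=
      Nat.mul_le_mul (by omega) (by omega)
    have h3 : Nat.succ (Nat.sqrt (4 * M)) = Nat.sqrt (4 * M) + 1 := rfl
    rw [h3] at h1
    omega
  have hβ3 : 3 ≤ β := by
    by_contra hcon
    have h1 : β ≤ 2 := by omega
    have h2 : 2 ^ β ≤ 2 ^ 2 := Nat.pow_le_pow_right (by norm_num) h1
    omega
  set X := β * (n + 5) with hX
  have hTX : T * X ≤ u := by
    have h1 : (T * X) ^ 2 ≤ u ^ 2 := by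
      have hsq := Nat.sqrt_le (4 * M)
      have hsq2 : Nat.sqrt (4 * M) ≤ 2 * M := by
        by_contra hcon
        push Not at hcon
        have : (2 * M + 1) * (2 * M + 1) ≤ Nat.sqrt (4 * M) * Nat.sqrt (4 * M) :=
          Nat.mul_le_mul hcon hcon
        nlinarith
      have hT2 : T ^ 2 ≤ 9 * M := by
        rw [hT]
        nlinarith
      have hXM : 9216 * X ^ 2 ≤ M := by
        have : (96 * X) ^ 2 = 9216 * X ^ 2 := by ring
        rw [← this]
        exact hcond.trans hM
      have h5 : 1024 * (T * X) ^ 2 ≤ 1024 * u ^ 2 := by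
        calc 1024 * (T * X) ^ 2 = T ^ 2 * (1024 * X ^ 2) := by ring
          _ ≤ (9 * M) * (1024 * X ^ 2) := Nat.mul_le_mul_right _ hT2
          _ = M * (9216 * X ^ 2) := by ring
          _ ≤ M * M := Nat.mul_le_mul_left _ hXM
          _ ≤ (32 * u) * (32 * u) := Nat.mul_le_mul hMu hMu
          _ = 1024 * u ^ 2 := by ring
      omega
    exact (Nat.pow_le_pow_iff_left (by norm_num)).mp h1
  have hmain := card_fam m s M hs T hTt
  -- the factors
  have f1 : ((T : ℝ) + 1) ^ 2 * (8 * s) ^ ((n + 4) * T) ≤ 2 ^ u := by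
    have a1 : T + 1 ≤ 2 ^ T := Nat.lt_two_pow_self
    have a2 : (T + 1) ^ 2 * (8 * s) ^ ((n + 4) * T) ≤ 2 ^ u := by
      calc (T + 1) ^ 2 * (8 * s) ^ ((n + 4) * T) ≤ (2 ^ T) ^ 2 * (2 ^ β) ^ ((n + 4) * T) := by
            gcongr
        _ = 2 ^ (T * 2 + β * ((n + 4) * T)) := by
            rw [← pow_mul, ← pow_mul, ← pow_add]
        _ ≤ 2 ^ u := by
            apply Nat.pow_le_pow_right (by norm_num)
            refine le_trans ?_ hTX
            rw [hX]
            nlinarith
    exact_mod_cast a2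
  have f2 : (128 : ℝ) ^ (2 * s) ≤ 2 ^ u := by
    have : (128 : ℝ) ^ (2 * s) = 2 ^ (14 * s) := by
      rw [show (128 : ℝ) = 2 ^ 7 by norm_num, ← pow_mul]
      congr 1; ring
    rw [this]
    exact pow_le_pow_right₀ (by norm_num) (by omega)
  have f3 : (64 / 63 : ℝ) ^ (4 * M) ≤ 2 ^ (2 * u + 2) := by
    calc (64 / 63 : ℝ) ^ (4 * M) ≤ (64 / 63 : ℝ) ^ (64 * (u + 1)) :=
          pow_le_pow_right₀ (by norm_num) (by omega)
      _ = ((64 / 63 : ℝ) ^ 64) ^ (u + 1) := by rw [pow_mul]
      _ ≤ (4 : ℝ) ^ (u + 1) := pow_le_pow_left₀ (by positivity) (by norm_num) _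
      _ = 2 ^ (2 * u + 2) := by
          rw [show (4 : ℝ) = 2 ^ 2 by norm_num, ← pow_mul]
          congr 1
  have f4 : (∏ i, (m i : ℝ)) ^ (1 + 100 * M / (3 * s)) ≤ 2 ^ (2 * u) := by
    set r := 100 * M / (3 * s) with hr
    have b1 : (∏ i, (m i : ℝ)) ≤ 2 ^ lam := by exact_mod_cast hN
    have b0 : (0 : ℝ) ≤ ∏ i, (m i : ℝ) := Finset.prod_nonneg (fun i _ => Nat.cast_nonneg _)
    have b2 : lam * (1 + r) ≤ 2 * u := by
      have c1 : r * (3 * s) ≤ 100 * M := Nat.div_mul_le_self _ _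
      have c2 : 33 * (lam * r) * s ≤ M * s := by
        calc 33 * (lam * r) * s = (11 * lam) * (r * (3 * s)) := by ring
          _ ≤ (11 * lam) * (100 * M) := Nat.mul_le_mul_left _ c1
          _ = (1100 * lam) * M := by ring
          _ ≤ s * M := Nat.mul_le_mul_right _ hlam
          _ = M * s := mul_comm _ _
      have c3 : 33 * (lam * r) ≤ M := Nat.le_of_mul_le_mul_right c2 (by omega)
      have c4 : lam ≤ u := by omega
      have c5 : lam * r ≤ u := by omega
      calc lam * (1 + r) = lam + lam * r := by ring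
        _ ≤ 2 * u := by omega
    calc (∏ i, (m i : ℝ)) ^ (1 + r) ≤ ((2 : ℝ) ^ lam) ^ (1 + r) := pow_le_pow_left₀ b0 b1 _
      _ = 2 ^ (lam * (1 + r)) := by rw [← pow_mul]
      _ ≤ 2 ^ (2 * u) := pow_le_pow_right₀ (by norm_num) b2
  calc ((fam m s M).card : ℝ) ≤ _ := hmain
    _ = (((T : ℝ) + 1) ^ 2 * (8 * s) ^ ((n + 4) * T)) * 128 ^ (2 * s) * (64 / 63 : ℝ) ^ (4 * M) *
        (∏ i, (m i : ℝ)) ^ (1 + 100 * M / (3 * s)) := by ring
    _ ≤ (2 ^ u) * 2 ^ u * 2 ^ (2 * u + 2) * 2 ^ (2 * u) := by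
        have b0 : (0 : ℝ) ≤ ∏ i, (m i : ℝ) := Finset.prod_nonneg (fun i _ => Nat.cast_nonneg _)
        gcongr
    _ = 2 ^ (6 * u + 2) := by
        rw [← pow_add, ← pow_add, ← pow_add]
        congr 1; ring

/-- There is a good colouring. -/
theorem exists_colouring (m : ι → ℕ) [∀ i, NeZero (m i)] (s lam β : ℕ) (hs : 1 ≤ s)
    (hN : ∏ i, m i ≤ 2 ^ lam) (hlam : 1100 * lam ≤ s) (hβ : 8 * s ≤ 2 ^ β)
    (hcond : (96 * (β * (Fintype.card ι + 5))) ^ 2 ≤ 240 * s)
    (e : ((i : ι) → ZMod (m i)) → ℕ) :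
    ∃ c : ((i : ι) → ZMod (m i)) → Bool, ∀ A : Finset ((i : ι) → ZMod (m i)), A.card = s →
      240 * s ≤ (A - A).card → ∀ b : Bool, ∃ h ∈ Dset e A, c h ≠ b := by
  classical
  set N₀ := Fintype.card ((i : ι) → ZMod (m i)) with hN₀
  set Bad : Finset (((i : ι) → ZMod (m i)) → Bool) :=
    (Finset.Icc (240 * s) (s ^ 2)).biUnion (fun M => (fam m s M).biUnion (fun A =>
      (Finset.univ : Finset Bool).biUnion (fun b =>
        Finset.univ.filter (fun c => ∀ h ∈ Dset e A, c h = b)))) with hBad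
  have hcard : (Bad.card : ℝ) < 2 ^ N₀ := by
    have h1 : (Bad.card : ℝ) ≤ ∑ M ∈ Finset.Icc (240 * s) (s ^ 2), ∑ A ∈ fam m s M,
        ∑ b : Bool, ((Finset.univ.filter (fun c : ((i : ι) → ZMod (m i)) → Bool =>
          ∀ h ∈ Dset e A, c h = b)).card : ℝ) := by
      have h : Bad.card ≤ ∑ M ∈ Finset.Icc (240 * s) (s ^ 2), ∑ A ∈ fam m s M,
        ∑ b : Bool, (Finset.univ.filter (fun c : ((i : ι) → ZMod (m i)) → Bool =>
          ∀ h ∈ Dset e A, c h = b)).card := by
        refine Finset.card_biUnion_le.trans (Finset.sum_le_sum (fun M _ => ?_))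
        refine Finset.card_biUnion_le.trans (Finset.sum_le_sum (fun A _ => ?_))
        exact Finset.card_biUnion_le
      exact_mod_cast h
    have h2 : ∀ M ∈ Finset.Icc (240 * s) (s ^ 2), ∑ A ∈ fam m s M,
        ∑ b : Bool, ((Finset.univ.filter (fun c : ((i : ι) → ZMod (m i)) → Bool =>
          ∀ h ∈ Dset e A, c h = b)).card : ℝ) ≤ 2 ^ N₀ * (8 / 2 ^ (30 * s)) := by
      intro M hM
      rw [Finset.mem_Icc] at hM
      have hfam := fam_le m s M lam β hs hN hlam hM.1 hβ hcond
      have h3 : ∀ A ∈ fam m s M, ∑ b : Bool,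
          ((Finset.univ.filter (fun c : ((i : ι) → ZMod (m i)) → Bool =>
          ∀ h ∈ Dset e A, c h = b)).card : ℝ) ≤ 2 * (2 ^ N₀ / 2 ^ (8 * (M / 16))) := by
        intro A hA
        rw [fam, Finset.mem_filter] at hA
        have hD := card_Dset e A
        rw [hA.2.2] at hD
        have hD' : 8 * (M / 16) ≤ (Dset e A).card := by omega
        rw [Finset.sum_congr rfl (fun b _ => card_fix (Dset e A) b), Finset.sum_const,
          Finset.card_univ, Fintype.card_bool, nsmul_eq_mul]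
        push_cast
        have : (2 : ℝ) ^ (8 * (M / 16)) ≤ 2 ^ (Dset e A).card :=
          pow_le_pow_right₀ (by norm_num) hD'
        gcongr
      calc ∑ A ∈ fam m s M, ∑ b : Bool,
          ((Finset.univ.filter (fun c : ((i : ι) → ZMod (m i)) → Bool =>
          ∀ h ∈ Dset e A, c h = b)).card : ℝ) ≤ ∑ A ∈ fam m s M, 2 * (2 ^ N₀ / 2 ^ (8 * (M / 16))) :=
            Finset.sum_le_sum h3
        _ = (fam m s M).card * (2 * (2 ^ N₀ / 2 ^ (8 * (M / 16)))) := by
            rw [Finset.sum_const, nsmul_eq_mul]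
        _ ≤ 2 ^ (6 * (M / 16) + 2) * (2 * (2 ^ N₀ / 2 ^ (8 * (M / 16)))) :=
            mul_le_mul_of_nonneg_right hfam (by positivity)
        _ = 2 ^ N₀ * (8 / 2 ^ (2 * (M / 16))) := by
            have e1 : (2 : ℝ) ^ (8 * (M / 16)) = 2 ^ (6 * (M / 16)) * 2 ^ (2 * (M / 16)) := by
              rw [← pow_add]; congr 1; ring
            rw [e1, pow_add]
            field_simp
            ring
        _ ≤ 2 ^ N₀ * (8 / 2 ^ (30 * s)) := by
            have e2 : (2 : ℝ) ^ (30 * s) ≤ 2 ^ (2 * (M / 16)) :=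
              pow_le_pow_right₀ (by norm_num) (by omega)
            gcongr
    have h4 : ∑ M ∈ Finset.Icc (240 * s) (s ^ 2), ∑ A ∈ fam m s M,
        ∑ b : Bool, ((Finset.univ.filter (fun c : ((i : ι) → ZMod (m i)) → Bool =>
          ∀ h ∈ Dset e A, c h = b)).card : ℝ) ≤ (s ^ 2 + 1) * (2 ^ N₀ * (8 / 2 ^ (30 * s))) := by
      calc _ ≤ ∑ M ∈ Finset.Icc (240 * s) (s ^ 2), 2 ^ N₀ * (8 / (2 : ℝ) ^ (30 * s)) :=
            Finset.sum_le_sum h2
        _ = ((Finset.Icc (240 * s) (s ^ 2)).card : ℝ) * (2 ^ N₀ * (8 / (2 : ℝ) ^ (30 * s))) := by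
            rw [Finset.sum_const, nsmul_eq_mul]
        _ ≤ _ := by
            apply mul_le_mul_of_nonneg_right _ (by positivity)
            have : (Finset.Icc (240 * s) (s ^ 2)).card ≤ s ^ 2 + 1 := by
              rw [Nat.card_Icc]; omega
            exact_mod_cast this
    have h5 : ((s : ℝ) ^ 2 + 1) * 8 < 2 ^ (30 * s) := by
      have h6 : (s ^ 2 + 1) * 8 < 2 ^ (30 * s) := by
        have h7 : s < 2 ^ s := Nat.lt_two_pow_self
        have h8 : 2 ^ 28 ≤ 2 ^ (28 * s) := Nat.pow_le_pow_right (by norm_num) (by omega)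
        have h9 : 2 ^ (30 * s) = 2 ^ (28 * s) * (2 ^ s * 2 ^ s) := by
          rw [← pow_add, ← pow_add]; congr 1; ring
        rw [h9]
        have h10 : s * s < 2 ^ s * 2 ^ s := by nlinarith
        nlinarith
      exact_mod_cast h6
    calc (Bad.card : ℝ) ≤ _ := h1
      _ ≤ _ := h4
      _ = 2 ^ N₀ * ((((s : ℝ) ^ 2 + 1) * 8) / 2 ^ (30 * s)) := by ring
      _ < 2 ^ N₀ * 1 := by
          apply mul_lt_mul_of_pos_left _ (by positivity)
          rw [div_lt_one (by positivity)]
          exact h5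
      _ = 2 ^ N₀ := mul_one _
  have hex : ∃ c, c ∉ Bad := by
    by_contra hcon
    push Not at hcon
    have h1 : Bad = Finset.univ := Finset.eq_univ_iff_forall.mpr hcon
    rw [h1, Finset.card_univ, Fintype.card_fun, Fintype.card_bool] at hcard
    push_cast at hcard
    exact lt_irrefl _ hcard
  obtain ⟨c, hc⟩ := hex
  refine ⟨c, fun A hA hM b => ?_⟩
  by_contra hcon
  push Not at hcon
  apply hc
  rw [hBad, Finset.mem_biUnion]
  refine ⟨(A - A).card, ?_, ?_⟩
  · rw [Finset.mem_Icc]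
    refine ⟨hM, ?_⟩
    have := Finset.card_sub_le (s := A) (t := A)
    rw [hA] at this
    rw [sq]; exact this
  · rw [Finset.mem_biUnion]
    refine ⟨A, ?_, ?_⟩
    · rw [fam, Finset.mem_filter]
      exact ⟨Finset.mem_univ _, hA, rfl⟩
    · rw [Finset.mem_biUnion]
      refine ⟨b, Finset.mem_univ _, ?_⟩
      rw [Finset.mem_filter]
      exact ⟨Finset.mem_univ _, hcon⟩

end K3h15.RC
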